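import Pool.Agent.H73.HU.Defs

/-!
# Project HU, module Act: the finite set of the walls which act on a basis vector

PLAN. `finite_inv`: the left inversions of `w` are the members of `cs.leftInvSeq ω` for a reduced word `ω` of `w`
(`mem_leftInvSeq_iff` in `Pool/Agent/H26/HR/Inv.lean`).

`exists_act`: for `w` with `dec cs L w = (h, z)` choose a finite set `A_w` with `z ∈ WP (cs1 cs L) A_w` (`exists_finset_mem_WP`) and
for every `a : Rf cs L` a `g_a ∈ W_L` and `b ∉ L` with `a = g_a b g_a⁻¹` (`a.2`); `act w` is the union of `inl t` for `t` a left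
inversion of `h⁻¹` or of a `g_a`, `a ∈ A_w`, and of `inr a`, `a ∈ A_w`. For `h * pi1 z`, `k * pi1 y` take
`A = A_(h pi1 z) ∪ A_(k pi1 y)` (`dec_eq`). If `j = inl t` is in neither set: `side cs t h = side cs t k = false`, and
`a ∈ Zs cs L t false` for all `a ∈ A` (with `g_a`), so `z' ∈ WP A ≤ WP (Zs ..)` (`WP_mono`) and `mT = 1`. If `j = inr a`:
`a ∉ A`, `NN = 0` (`NN_eq_zero_of_notMem`).
-/

set_option autoImplicit false

open scoped ComplexOrder InnerProductSpace
open Filter Topology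

namespace Pool.Agent.H73.HU

open Pool.Agent.H73.HVN Pool.Agent.H26.SD

universe u v w

variable {B : Type v} {W : Type u} [Group W] {M : CoxeterMatrix B} (cs : CoxeterSystem M W)

theorem finite_inv (w : W) : {t | cs.IsLeftInversion w t}.Finite := by
  obtain ⟨ω, hω, rfl⟩ := cs.exists_isReduced w
  refine (List.finite_toSet (cs.leftInvSeq ω)).subset fun t ht => ?_
  exact (Pool.Agent.H26.HR.mem_leftInvSeq_iff cs hω).2 ht

theorem exists_act {L : Set B} (hE : ∀ i, i ∉ L → ∀ j ∈ L, Even (M i j)) :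
    ∃ act : W → Finset (W ⊕ Rf cs L), ∀ h ∈ WP cs L, ∀ k ∈ WP cs L, ∀ z y : W1 cs L,
      ∃ A : Set (Rf cs L), z ∈ WP (cs1 cs L) A ∧ y ∈ WP (cs1 cs L) A ∧
        ∀ (r : ℝ) (j : W ⊕ Rf cs L), j ∉ act (h * pi1 cs L z) → j ∉ act (k * pi1 cs L y) →
          ∀ z' ∈ WP (cs1 cs L) A, mJ cs L r j h k z' = 1 := by
  classical
  choose Aw hAw using fun z : W1 cs L => exists_finset_mem_WP (cs1 cs L) z
  choose g hg b hb hab using fun a : Rf cs L => a.2
  refine ⟨fun w => ((finite_inv cs ((dec cs L w).1 : W)⁻¹).toFinset.image Sum.inl ∪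
      (Aw (dec cs L w).2).biUnion fun a => (finite_inv cs (g a)).toFinset.image Sum.inl) ∪
      (Aw (dec cs L w).2).image Sum.inr, fun h hh k hk z y => ?_⟩
  have e1 : dec cs L (h * pi1 cs L z) = (⟨h, hh⟩, z) := dec_eq cs hE ⟨h, hh⟩ z
  have e2 : dec cs L (k * pi1 cs L y) = (⟨k, hk⟩, y) := dec_eq cs hE ⟨k, hk⟩ y
  refine ⟨(Aw z : Set (Rf cs L)) ∪ (Aw y : Set (Rf cs L)),
    WP_mono (cs1 cs L) Set.subset_union_left (hAw z),
    WP_mono (cs1 cs L) Set.subset_union_right (hAw y), fun r j hj1 hj2 z' hz' => ?_⟩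
  simp only [e1] at hj1
  simp only [e2] at hj2
  simp only [Finset.mem_union, Finset.mem_image, Finset.mem_biUnion, Set.Finite.mem_toFinset,
    Set.mem_ofPred_eq, not_or, not_exists, not_and] at hj1 hj2
  obtain ⟨⟨p1, p2⟩, p3⟩ := hj1
  obtain ⟨⟨q1', q2⟩, q3⟩ := hj2
  rcases j with t | a
  · have s1 : side cs t h = false := by
      unfold side
      exact decide_eq_false fun hc => p1 t hc rfl
    have s2 : side cs t k = false := by
      unfold side
      exact decide_eq_false fun hc => q1' t hc rfl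
    have hsub : (Aw z : Set (Rf cs L)) ∪ (Aw y : Set (Rf cs L)) ⊆ Zs cs L t false := by
      intro a ha
      refine ⟨g a, hg a, b a, hb a, hab a, ?_⟩
      unfold side
      rw [inv_inv]
      refine decide_eq_false fun hc => ?_
      rcases ha with ha | ha
      · exact p2 a ha t hc rfl
      · exact q2 a ha t hc rfl
    show mT cs L r t h k z' = 1
    unfold mT
    rw [s1, s2, if_pos ⟨rfl, WP_mono (cs1 cs L) hsub hz'⟩]
  · have ha : a ∉ (Aw z : Set (Rf cs L)) ∪ (Aw y : Set (Rf cs L)) := by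
      rintro (ha | ha)
      · exact p3 a ha rfl
      · exact q3 a ha rfl
    show r ^ NN (cs1 cs L) a z' = 1
    rw [NN_eq_zero_of_notMem (cs1 cs L) ha hz', pow_zero]

end Pool.Agent.H73.HU
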