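import Pool.Agent.H73.HU.Defs
import Pool.Agent.H73.HVN.Parab

/-!
# Project HU, module Aut: automorphisms of a Coxeter system

PLAN. `φ` maps the generator of `i` to that of `σ i`. `length_aut`: `φ` maps a reduced word of `w` to a word of `φ w` of the
same length, so `ℓ (φ w) ≤ ℓ w`; the same for `φ.symm`, `σ.symm`. Descents: from the length. `WP_aut`: the image under `φ`
of the subgroup generated by the `s_i`, `i ∈ A`. `NN_aut`: `YY`, `FF` (definitions in
`Pool/Agent/H73/HVN/CoxDefs.lean`; `lk`, `op` are preserved by `hM`) correspond under `φ`, so `φ` is a bijection between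
the two sets counted.
-/

set_option autoImplicit false

open scoped ComplexOrder InnerProductSpace
open Filter Topology

namespace Pool.Agent.H73.HU

open Pool.Agent.H73.HVN Pool.Agent.H26.SD

universe u v w

variable {B : Type v} {W : Type u} [Group W] {M : CoxeterMatrix B} (cs : CoxeterSystem M W)

private lemma map_word {σ : Equiv.Perm B} {φ : W ≃* W} (h : ∀ i, φ (cs.simple i) = cs.simple (σ i))
    (ω : List B) : φ (cs.wordProd ω) = cs.wordProd (ω.map σ) := by
  induction ω with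
  | nil => simp
  | cons i ω ih => rw [List.map_cons, cs.wordProd_cons, cs.wordProd_cons, map_mul, h, ih]

private lemma length_aut_le {σ : Equiv.Perm B} {φ : W ≃* W}
    (h : ∀ i, φ (cs.simple i) = cs.simple (σ i)) (w : W) : cs.length (φ w) ≤ cs.length w := by
  obtain ⟨ω, h1, h2⟩ := cs.exists_reduced_word w
  rw [h2, map_word cs h]
  have e : cs.length (cs.wordProd ω) = ω.length := h1
  rw [e]
  refine (cs.length_wordProd_le _).trans ?_
  rw [List.length_map]

private lemma symm_aut {σ : Equiv.Perm B} {φ : W ≃* W} (h : ∀ i, φ (cs.simple i) = cs.simple (σ i))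
    (i : B) : φ.symm (cs.simple i) = cs.simple (σ.symm i) := by
  rw [MulEquiv.symm_apply_eq, h, Equiv.apply_symm_apply]

theorem length_aut {σ : Equiv.Perm B} {φ : W ≃* W} (h : ∀ i, φ (cs.simple i) = cs.simple (σ i)) (w : W) :
    cs.length (φ w) = cs.length w := by
  refine le_antisymm (length_aut_le cs h w) ?_
  have := length_aut_le cs (symm_aut cs h) (φ w)
  rwa [MulEquiv.symm_apply_apply] at this

theorem rdesc_aut {σ : Equiv.Perm B} {φ : W ≃* W} (h : ∀ i, φ (cs.simple i) = cs.simple (σ i)) (w : W)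
    (i : B) : cs.IsRightDescent (φ w) (σ i) ↔ cs.IsRightDescent w i := by
  unfold CoxeterSystem.IsRightDescent
  rw [← h, ← map_mul, length_aut cs h, length_aut cs h]

private lemma ldesc_aut {σ : Equiv.Perm B} {φ : W ≃* W} (h : ∀ i, φ (cs.simple i) = cs.simple (σ i))
    (w : W) (i : B) : cs.IsLeftDescent (φ w) (σ i) ↔ cs.IsLeftDescent w i := by
  unfold CoxeterSystem.IsLeftDescent
  rw [← h, ← map_mul, length_aut cs h, length_aut cs h]

theorem WP_aut {σ : Equiv.Perm B} {φ : W ≃* W} (h : ∀ i, φ (cs.simple i) = cs.simple (σ i)) (w : W)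
    (A : Set B) : φ w ∈ WP cs (σ '' A) ↔ w ∈ WP cs A := by
  have e : WP cs (σ '' A) = (WP cs A).map φ.toMonoidHom := by
    unfold WP
    rw [MonoidHom.map_closure]
    congr 1
    ext x
    simp only [Set.mem_image]
    constructor
    · rintro ⟨_, ⟨i, hi, rfl⟩, rfl⟩
      exact ⟨cs.simple i, ⟨i, hi, rfl⟩, h i⟩
    · rintro ⟨_, ⟨i, hi, rfl⟩, rfl⟩
      exact ⟨σ i, ⟨i, hi, rfl⟩, (h i).symm⟩
  rw [e]
  constructor
  · rintro ⟨v, hv, hv'⟩
    have : v = w := φ.injective hv'
    rwa [← this]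
  · intro hw
    exact ⟨w, hw, rfl⟩

private lemma FF_aut {σ : Equiv.Perm B} {φ : W ≃* W} (h : ∀ i, φ (cs.simple i) = cs.simple (σ i))
    (hM : ∀ i j, M (σ i) (σ j) = M i j) (b : B) (f : W) : φ f ∈ FF cs (σ b) ↔ f ∈ FF cs b := by
  constructor
  · intro hf i hi
    have := hf (σ i) ((ldesc_aut cs h f i).2 hi)
    have e : M (σ b) (σ i) = 0 := this
    rw [hM] at e
    exact e
  · intro hf i hi
    obtain ⟨j, rfl⟩ := σ.surjective i
    have e : M b j = 0 := hf j ((ldesc_aut cs h f j).1 hi)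
    show M (σ b) (σ j) = 0
    rw [hM]
    exact e

private lemma lk_aut {σ : Equiv.Perm B} (hM : ∀ i j, M (σ i) (σ j) = M i j) (b : B) :
    lk M (σ b) = σ '' lk M b := by
  ext t
  obtain ⟨j, rfl⟩ := σ.surjective t
  simp only [lk, Set.mem_setOf_eq, Set.mem_image, EmbeddingLike.apply_eq_iff_eq, exists_eq_right,
    hM, ne_eq]

private lemma YY_aut {σ : Equiv.Perm B} {φ : W ≃* W} (h : ∀ i, φ (cs.simple i) = cs.simple (σ i))
    (hM : ∀ i j, M (σ i) (σ j) = M i j) (b : B) (y : W) : φ y ∈ YY cs (σ b) ↔ y ∈ YY cs b := by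
  have e : ∀ l, l ∈ WP cs (lk M b) ↔ φ l ∈ WP cs (lk M (σ b)) := fun l => by
    rw [lk_aut hM, WP_aut cs h]
  constructor
  · intro hy l hl hd
    refine hy (φ l) ((e l).1 hl) ?_
    rw [← map_mul]
    exact (rdesc_aut cs h _ _).2 hd
  · intro hy l hl hd
    obtain ⟨m, rfl⟩ := φ.surjective l
    refine hy m ((e m).2 hl) ?_
    rw [← map_mul] at hd
    exact (rdesc_aut cs h _ _).1 hd

theorem NN_aut {σ : Equiv.Perm B} {φ : W ≃* W} (h : ∀ i, φ (cs.simple i) = cs.simple (σ i))
    (hM : ∀ i j, M (σ i) (σ j) = M i j) (b : B) (y : W) : NN cs (σ b) (φ y) = NN cs b y := by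
  unfold NN
  rw [← Set.ncard_image_of_injective {f | f ∈ FF cs b ∧ y * f⁻¹ ∉ YY cs b} φ.injective]
  congr 1
  ext g
  obtain ⟨f, rfl⟩ := φ.surjective g
  simp only [Set.mem_setOf_eq, Set.mem_image, EmbeddingLike.apply_eq_iff_eq, exists_eq_right]
  rw [FF_aut cs h hM, ← map_inv, ← map_mul, YY_aut cs h hM]

end Pool.Agent.H73.HU
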