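import Pool.Agent.H73.HU.Krm

/-!
# Project HU, module Blk: blocks
-/

set_option autoImplicit false

open scoped ComplexOrder InnerProductSpace
open Filter Topology

namespace Pool.Agent.H73.HU

open Pool.Agent.H73.HVN Pool.Agent.H26.SD

universe u v w

variable {B : Type v} {W : Type u} [Group W] {M : CoxeterMatrix B} (cs : CoxeterSystem M W)

variable {cs} in
theorem BMap.comp {L : Set B} {q : B → ℝ} {T S : (L2 W →L[ℂ] L2 W) →ₗ[ℂ] (L2 W →L[ℂ] L2 W)}
    {m m' : W → W → W1 cs L → ℝ} (hT : BMap cs L q T m) (hS : BMap cs L q S m') :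
    BMap cs L q (T ∘ₗ S) (fun h k z => m h k z * m' h k z) := by
  refine ⟨hT.1.comp hS.1, fun x hx => ?_⟩
  obtain ⟨h1, h2⟩ := hS.2 x hx
  obtain ⟨h3, h4⟩ := hT.2 (S x) h1
  refine ⟨h3, fun h hh k hk z => ?_⟩
  have h5 := h4 h hh k hk z
  rw [h2 h hh k hk z] at h5
  rw [LinearMap.comp_apply, h5]
  push_cast
  ring

theorem bmap_id (L : Set B) (q : B → ℝ) : BMap cs L q LinearMap.id (fun _ _ _ => 1) := by
  refine ⟨krM_id, fun x hx => ⟨hx, fun h hh k hk z => ?_⟩⟩
  rw [LinearMap.id_apply, Complex.ofReal_one, one_mul]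

theorem exists_finset_bmap {L : Set B} {q : B → ℝ} {J : Type w} {m : J → W → W → W1 cs L → ℝ}
    (h : ∀ j, ∃ T, BMap cs L q T (m j)) :
    ∃ T : Finset J → ((L2 W →L[ℂ] L2 W) →ₗ[ℂ] (L2 W →L[ℂ] L2 W)), ∀ F,
      BMap cs L q (T F) (fun h k z => ∏ j ∈ F, m j h k z) := by
  classical
  have key : ∀ F : Finset J, ∃ T : (L2 W →L[ℂ] L2 W) →ₗ[ℂ] (L2 W →L[ℂ] L2 W),
      BMap cs L q T (fun h k z => ∏ j ∈ F, m j h k z) := by
    intro F
    induction F using Finset.induction_on with
    | empty => exact ⟨_, by simpa using bmap_id cs L q⟩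
    | insert j F hj ih =>
      obtain ⟨T, hT⟩ := h j
      obtain ⟨S, hS⟩ := ih
      refine ⟨T ∘ₗ S, ?_⟩
      have h1 := hT.comp hS
      convert h1 using 1
      funext h k z
      rw [Finset.prod_insert hj]
  choose T hT using key
  exact ⟨T, hT⟩

/-- uniqueness on a parabolic subgroup -/
theorem CC_ext_on {q : B → ℝ} {X X' : W → W → ℂ} {A : Set B} (hX : ∀ i, CC cs q X i)
    (hX' : ∀ i, CC cs q X' i) (h : ∀ z ∈ WP cs A, X z 1 = X' z 1) :
    ∀ z ∈ WP cs A, ∀ y ∈ WP cs A, X z y = X' z y := by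
  have key : ∀ y ∈ WP cs A, ∀ z ∈ WP cs A, X z y = X' z y := by
    intro y hy
    obtain ⟨ω, h1, rfl⟩ := exists_word_mem cs A hy
    clear hy
    induction ω using List.reverseRecOn with
    | nil =>
      intro z hz
      simpa using h z hz
    | append_singleton ω i ih =>
      intro z hz
      have hi : i ∈ A := h1 i (by simp)
      have h2 := ih (fun k hk => h1 k (by simp [hk]))
      rw [cs.wordProd_append, cs.wordProd_singleton]
      have e1 := hX i z (cs.wordProd ω)
      have e2 := hX' i z (cs.wordProd ω)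
      have hz' : z * cs.simple i ∈ WP cs A := mul_mem hz (Subgroup.subset_closure ⟨i, hi, rfl⟩)
      rw [h2 _ hz', h2 _ hz] at e1
      linear_combination e1 - e2
  exact fun z hz y hy => key y hy z hz

theorem WP_univ_mem (w : W) : w ∈ WP cs (Set.univ : Set B) := by
  obtain ⟨A, hA⟩ := exists_finset_mem_WP cs w
  exact WP_mono cs (Set.subset_univ _) hA

/-- the algebra in terms of blocks -/
theorem mem_HA_iff_blk {L : Set B} {q : B → ℝ} (hq : Admissible cs q)
    (hE : ∀ i, i ∉ L → ∀ j ∈ L, Even (M i j)) (hL : ∀ i ∈ L, q i = 1) (x : L2 W →L[ℂ] L2 W) :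
    x ∈ HA cs q ↔ BCC cs L q (cf x) ∧
      ∀ g ∈ WP cs L, ∀ z y, cf x (z * g) (y * g) = cf x z y := by
  rw [mem_HA_iff_CC cs hq]
  constructor
  · intro hX
    refine ⟨?_, fun g hg => CC_inv cs hL hX hg⟩
    intro h hh k hk a z y
    have h1 := CC_res cs hq hE hL hX hh hk (one_mem _) a z y
    simp only [mul_one] at h1
    exact h1
  · rintro ⟨h1, h2⟩ i z y
    by_cases hi : i ∈ L
    · rw [pr_one cs (hL i hi), pr_one cs (hL i hi), zero_mul, add_zero, add_zero]
      have hg : cs.simple i ∈ WP cs L := Subgroup.subset_closure ⟨i, hi, rfl⟩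
      have h3 := h2 _ hg z (y * cs.simple i)
      rw [cs.simple_mul_simple_cancel_right] at h3
      exact h3.symm
    · set a : Rf cs L := ⟨cs.simple i, simple_mem_Rf cs L hi⟩ with ha
      have e0 : (a : W) = 1 * cs.simple i * 1⁻¹ := by simp [ha]
      have ez := dec_spec cs L z
      have ey := dec_spec cs L y
      set hz := (dec cs L z).1 with hhz
      set z1 := (dec cs L z).2 with hz1
      set hy := (dec cs L y).1 with hhy
      set y1 := (dec cs L y).2 with hy1
      have h3 := h1 hz hz.2 hy hy.2 a z1 y1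
      have e1 : ∀ (c : W) (u : W1 cs L), c * pi1 cs L (u * (cs1 cs L).simple a) =
          c * pi1 cs L u * cs.simple i := by
        intro c u
        rw [map_mul, pi1_simple, mul_assoc]
      have e2 : ∀ (c : W), c ∈ WP cs L → ∀ u : W1 cs L,
          pr cs q i (c * pi1 cs L u) = pr (cs1 cs L) (q1 cs L q) a u := by
        intro c hc u
        have := pr_eq cs hq hE hc (one_mem _) u hi a e0
        rwa [mul_one] at this
      unfold blk at h3
      rw [e1, e1, ← e2 hy hy.2 y1, ← e2 hz hz.2 z1, ← ez, ← ey] at h3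
      exact h3

end Pool.Agent.H73.HU
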