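import Pool.Agent.H26.SD.Asm
import Pool.Agent.H26.HR.Inv

/-!
# Project HU: definitions

`(W, S)` a Coxeter system, `L ⊆ S`, the labels between `L` and `S ∖ L` are even or `∞`. `W = W₁ ⋊ W_L`
(`Pool/Agent/H26/SD/Grp.lean`): `W₁ = W1 cs L` is the abstract Coxeter group on the reflections `g b g⁻¹`
(`Rf cs L`), `pi1 : W₁ → W` is the embedding, `cs1` its Coxeter system, `q1` its parameter, `act1 g` the
conjugation by `g ∈ W_L`. Every `w ∈ W` is `k * pi1 y` with `k ∈ W_L`, `y ∈ W₁` in exactly one way (`dec`).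

For a kernel `X : W → W → ℂ` and `h, k ∈ W_L`, `blk X h k` is the kernel `(z, y) ↦ X(h z, k y)` on `W₁`.
`BCC`: all blocks satisfy the commutation conditions of `W₁`. `cf x` is the kernel of an operator `x` on
`ℓ²(W)`: `cf x z y = (x δ_y)(z)`.
-/

set_option autoImplicit false

open scoped ComplexOrder InnerProductSpace
open Filter Topology

namespace Pool.Agent.H73.HU

open Pool.Agent.H73.HVN Pool.Agent.H26.SD

universe u v

section General

variable {H : Type u} [NormedAddCommGroup H] [InnerProductSpace ℂ H]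

/-- completely positive contractions of the form `x ↦ ∑ A_i* x A_i` on all bounded operators -/
def KrM (T : (H →L[ℂ] H) →ₗ[ℂ] (H →L[ℂ] H)) : Prop :=
  ∃ (ι : Type u) (A : ι → H →L[ℂ] H), IsRow A 1 ∧
    ∀ (x : H →L[ℂ] H) (ξ η : H), ⟪η, T x ξ⟫_ℂ = ∑' i, ⟪A i η, x (A i ξ)⟫_ℂ

end General

variable {B : Type v} {W : Type u} [Group W] {M : CoxeterMatrix B} (cs : CoxeterSystem M W)

/-- the blocks of a kernel -/
noncomputable def blk (L : Set B) (X : W → W → ℂ) (h k : W) : W1 cs L → W1 cs L → ℂ :=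
  fun z y => X (h * pi1 cs L z) (k * pi1 cs L y)

/-- all blocks satisfy the commutation conditions of `W₁` -/
def BCC (L : Set B) (q : B → ℝ) (X : W → W → ℂ) : Prop :=
  ∀ h ∈ WP cs L, ∀ k ∈ WP cs L, ∀ a, CC (cs1 cs L) (q1 cs L q) (blk cs L X h k) a

/-- `T` is in Kraus form, preserves `BCC`, and has the block multiplier `m` -/
def BMap (L : Set B) (q : B → ℝ) (T : (L2 W →L[ℂ] L2 W) →ₗ[ℂ] (L2 W →L[ℂ] L2 W))
    (m : W → W → W1 cs L → ℝ) : Prop :=
  KrM T ∧ ∀ x : L2 W →L[ℂ] L2 W, BCC cs L q (cf x) → BCC cs L q (cf (T x)) ∧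
    ∀ h ∈ WP cs L, ∀ k ∈ WP cs L, ∀ z,
      blk cs L (cf (T x)) h k z 1 = ((m h k z : ℝ) : ℂ) * blk cs L (cf x) h k z 1

open Classical in
/-- the side of the wall of `t` on which `k⁻¹` is (`true`: not the side of `1`) -/
noncomputable def side (t k : W) : Bool := decide (cs.IsLeftInversion k⁻¹ t)

/-- the reflections `g b g⁻¹` with `g ∈ W_L` on the given side of the wall of `t` -/
def Zs (L : Set B) (t : W) (s : Bool) : Set (Rf cs L) :=
  {a | ∃ g ∈ WP cs L, ∃ b, b ∉ L ∧ (a : W) = g * cs.simple b * g⁻¹ ∧ side cs t g⁻¹ = s}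

open Classical in
/-- the block multiplier of the map of the wall of `t` -/
noncomputable def mT (L : Set B) (r : ℝ) (t h k : W) (z : W1 cs L) : ℝ :=
  if side cs t h = side cs t k ∧ z ∈ WP (cs1 cs L) (Zs cs L t (side cs t k)) then 1 else r

/-- the block multiplier of the tree map of `a` -/
noncomputable def mA (L : Set B) (r : ℝ) (a : Rf cs L) (_ _ : W) (z : W1 cs L) : ℝ :=
  r ^ NN (cs1 cs L) a z

/-- all block multipliers -/
noncomputable def mJ (L : Set B) (r : ℝ) : W ⊕ Rf cs L → W → W → W1 cs L → ℝ :=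
  Sum.elim (mT cs L r) (mA cs L r)

/-- the reflections `g b g⁻¹` with `g ∈ W_(A ∩ L)` and `b ∈ A ∖ L` -/
def RA (L A : Set B) : Set (Rf cs L) :=
  {a | ∃ g ∈ WP cs (A ∩ L), ∃ b ∈ A, b ∉ L ∧ (a : W) = g * cs.simple b * g⁻¹}

/-- the multiplier of the limit map -/
noncomputable def cU (L : Set B) (r : ℝ) (w : W) : ℝ :=
  ∏ᶠ j, mJ cs L r j (dec cs L w).1 1 (dec cs L w).2

end Pool.Agent.H73.HU
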