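import Pool.Agent.H73.HU.Aut
import Pool.Agent.H73.HU.Defs

/-!
# Project HU, module Eqv: invariance of the block multipliers under `W_L`

PLAN. `act1 g` (= `al g`, a `MulAut`) and `cj g` (a permutation of `Rf cs L` with inverse `cj g⁻¹`: `cj_cj`, `cj_one`) are an
automorphism of the Coxeter system `cs1` (`act1_simple`, `M1_cj`): module `Aut`. `pr_eqv`: right descents, and `q1_eq`. `mA_eqv`: `NN_aut`. `mT_eqv`: same side: for a reflection `t`
`inv_mul_iff` (`Pool/Agent/H26/HR/Inv.lean`) gives `t ∈ N(h⁻¹)` iff not (`t ∈ N(g)` iff `g⁻¹ t g ∈ N(g⁻¹ h⁻¹)`) (as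
`h⁻¹ = g (g⁻¹ h⁻¹)`, `(h g)⁻¹ = g⁻¹ h⁻¹`), so `side_eqv`; if `t` is not a reflection both sides are `false`. Hence
`Zs (g⁻¹ t g) (side (g⁻¹ t g) (k g)) = cj g⁻¹ '' Zs t (side t k)`, and `WP_aut`.
-/

set_option autoImplicit false

open scoped ComplexOrder InnerProductSpace
open Filter Topology

namespace Pool.Agent.H73.HU

open Pool.Agent.H73.HVN Pool.Agent.H26.SD

universe u v w

variable {B : Type v} {W : Type u} [Group W] {M : CoxeterMatrix B} (cs : CoxeterSystem M W)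

/-- the permutation of the reflections -/
private def Eqv_perm (L : Set B) (g : WP cs L) : Equiv.Perm (Rf cs L) where
  toFun := cj cs L g
  invFun := cj cs L g⁻¹
  left_inv a := by rw [cj_cj, inv_mul_cancel, cj_one]
  right_inv a := by rw [cj_cj, mul_inv_cancel, cj_one]

private theorem Eqv_al (L : Set B) (g : WP cs L) (a : Rf cs L) :
    al cs L g ((cs1 cs L).simple a) = (cs1 cs L).simple (Eqv_perm cs L g a) := by
  rw [al_apply, act1_simple]
  rfl

theorem pr_eqv {L : Set B} {q : B → ℝ} (hq : Admissible cs q) (g : WP cs L) (a : Rf cs L) (z : W1 cs L) :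
    pr (cs1 cs L) (q1 cs L q) (cj cs L g a) (act1 cs L g z) = pr (cs1 cs L) (q1 cs L q) a z := by
  have h1 : (cs1 cs L).IsRightDescent (act1 cs L g z) (cj cs L g a) ↔ (cs1 cs L).IsRightDescent z a :=
    rdesc_aut (cs1 cs L) (Eqv_al cs L g) z a
  have h2 : q1 cs L q (cj cs L g a) = q1 cs L q a := by
    obtain ⟨g', -, i, -, ha⟩ := a.2
    rw [q1_eq cs L hq a ha, q1_eq cs L hq (cj cs L g a) (g := g * g') (i := i)]
    change (g : W) * (a : W) * (g : W)⁻¹ = _
    rw [ha]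
    group
  unfold pr pp
  rw [h2]
  by_cases hd : (cs1 cs L).IsRightDescent z a
  · rw [if_pos (h1.2 hd), if_pos hd]
  · rw [if_neg (fun h => hd (h1.1 h)), if_neg hd]

theorem side_eqv (t g h k : W) :
    side cs (g⁻¹ * t * g) (h * g) = side cs (g⁻¹ * t * g) (k * g) ↔ side cs t h = side cs t k := by
  unfold side
  rw [decide_eq_decide, decide_eq_decide]
  by_cases ht : cs.IsReflection t
  · have key : ∀ x : W, cs.IsLeftInversion x⁻¹ t ↔
        ¬ (cs.IsLeftInversion g t ↔ cs.IsLeftInversion (x * g)⁻¹ (g⁻¹ * t * g)) := by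
      intro x
      have h1 := Pool.Agent.H26.HR.inv_mul_iff cs ht g (x * g)⁻¹
      rwa [mul_inv_rev, mul_inv_cancel_left, ← mul_inv_rev] at h1
    have h1 := key h
    have h2 := key k
    tauto
  · have ht' : ¬ cs.IsReflection (g⁻¹ * t * g) := by
      intro h1
      apply ht
      have h2 := h1.conj g
      have e : g * (g⁻¹ * t * g) * g⁻¹ = t := by group
      rwa [e] at h2
    have key : ∀ x : W, ¬ cs.IsLeftInversion x t := fun x h1 => ht h1.1
    have key' : ∀ x : W, ¬ cs.IsLeftInversion x (g⁻¹ * t * g) := fun x h1 => ht' h1.1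
    simp only [key, key']

theorem mA_eqv (L : Set B) (r : ℝ) (a : Rf cs L) (g : WP cs L) (h k h' k' : W) (z : W1 cs L) :
    mA cs L r (cj cs L g⁻¹ a) h' k' (act1 cs L g⁻¹ z) = mA cs L r a h k z := by
  unfold mA
  have h1 : NN (cs1 cs L) (cj cs L g⁻¹ a) (act1 cs L g⁻¹ z) = NN (cs1 cs L) a z :=
    NN_aut (cs1 cs L) (Eqv_al cs L g⁻¹) (fun a b => M1_cj cs L g⁻¹ a b) a z
  rw [h1]

private theorem Eqv_Zs (L : Set B) (t : W) (g : WP cs L) (k : W) :
    Zs cs L ((g : W)⁻¹ * t * g) (side cs ((g : W)⁻¹ * t * g) (k * g)) =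
      Eqv_perm cs L g⁻¹ '' Zs cs L t (side cs t k) := by
  ext a
  constructor
  · rintro ⟨g', hg', b, hb, ha, hs⟩
    refine ⟨cj cs L g a, ⟨g * g', mul_mem g.2 hg', b, hb, ?_, ?_⟩, ?_⟩
    · change (g : W) * (a : W) * (g : W)⁻¹ = _
      rw [ha]
      group
    · rw [← side_eqv cs t g, ← hs]
      congr 1
      group
    · change cj cs L g⁻¹ (cj cs L g a) = a
      rw [cj_cj, inv_mul_cancel, cj_one]
  · rintro ⟨c, ⟨g', hg', b, hb, hc, hs⟩, rfl⟩
    refine ⟨(g : W)⁻¹ * g', mul_mem (inv_mem g.2) hg', b, hb, ?_, ?_⟩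
    · change ((g⁻¹ : WP cs L) : W) * (c : W) * ((g⁻¹ : WP cs L) : W)⁻¹ = _
      rw [hc, Subgroup.coe_inv]
      group
    · rw [← side_eqv cs t g] at hs
      rw [← hs]
      congr 1
      group

theorem mT_eqv (L : Set B) (r : ℝ) (t : W) (g : WP cs L) (h k : W) (z : W1 cs L) :
    mT cs L r ((g : W)⁻¹ * t * g) (h * g) (k * g) (act1 cs L g⁻¹ z) = mT cs L r t h k z := by
  have h1 : act1 cs L g⁻¹ z ∈ WP (cs1 cs L) (Eqv_perm cs L g⁻¹ '' Zs cs L t (side cs t k)) ↔
      z ∈ WP (cs1 cs L) (Zs cs L t (side cs t k)) :=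
    WP_aut (cs1 cs L) (Eqv_al cs L g⁻¹) z _
  unfold mT
  rw [Eqv_Zs]
  have h2 := and_congr (side_eqv cs t (g : W) h k) h1
  by_cases hd : side cs t h = side cs t k ∧ z ∈ WP (cs1 cs L) (Zs cs L t (side cs t k))
  · rw [if_pos (h2.2 hd), if_pos hd]
  · rw [if_neg (fun h => hd (h2.1 h)), if_neg hd]

end Pool.Agent.H73.HU
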