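import Pool.Agent.H73.HU.Defs

/-!
# Project HU, module Lim: limits of Kraus maps which become constant on corners

PLAN. (No Coxeter groups here.) `T_F = T F` for finite `F ⊆ J`, `act y ⊆ J` finite for `y ∈ W`; for `x ∈ 𝓜` the matrix
entries `(T_F x)(z, y)` do not depend on `F` as soon as `act z ∪ act y ⊆ F`.

1. `T_F` is contractive and completely positive (Kraus form with `IsRow A 1`; Cauchy-Schwarz, see `Kraus.lean`).
2. Let `𝒰` be an ultrafilter on `Finset J` finer than `atTop` (`Ultrafilter.of atTop`). For bounded operators `x` and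
   vectors `ξ, η` let `b(x, η, ξ)` be the limit along `𝒰` of `⟪η, T_F x ξ⟫` (bounded by `‖x‖ ‖ξ‖ ‖η‖`; compact ball,
   `IsCompact.ultrafilter_le_nhds`). It is linear in `x` and `ξ`, conjugate linear in `η` and bounded, so
   `b(x, η, ξ) = ⟪η, Ψ x ξ⟫` for a linear map `Ψ` (see `kr_exists`, `exists_kraus` in `Kraus.lean`). Positivity of
   matrices passes to the limit: `Ψ` is completely positive.
3. For `x ∈ 𝓜` the entries of `Ψ x` are the eventual values (`inner_δ : ⟪δ z, f⟫ = f z`); `hmem` gives `Ψ x ∈ 𝓜`, so `Ψ`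
   restricts to `Φ : 𝓜 → 𝓜`.
4. Normality. Let `P_F` be the projection of `ℓ²(W)` onto the functions supported on `{y | act y ⊆ F}`. For
   `x ∈ 𝓜` and `F ⊆ F'`: `⟪P_F η, Ψ x P_F ξ⟫ = ⟪P_F η, T_F' x P_F ξ⟫` (same entries; both sides continuous, finitely
   supported vectors are dense; or expand). For given `ξ, η` choose `F_0 ⊆ F_1 ⊆ …` with `‖ξ - P_n ξ‖ ≤ 2^(-n) ‖ξ‖` and
   `‖η - P_n η‖ ≤ 2^(-n) ‖η‖` (`P_n = P_(F_n)`, `P_0 := 0` allowed; `hasSum_normsq`). Then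
   `⟪η, Ψ x ξ⟫ = ∑_n (⟪P_(n+1) η, Ψ x P_(n+1) ξ⟫ - ⟪P_n η, Ψ x P_n ξ⟫)
             = ∑_n (⟪D_n η, T_(n+1) x P_(n+1) ξ⟫ + ⟪P_n η, T_(n+1) x D_n ξ⟫)`, `D_n = P_(n+1) - P_n`,
   and with the Kraus operators `A_i` of `T_(n+1)` the `n`-th term is
   `∑_i ⟪2^(n/2) A_i D_n η, x 2^(-n/2) A_i P_(n+1) ξ⟫ + ∑_i ⟪2^(-n/2) A_i P_n η, x 2^(n/2) A_i D_n ξ⟫`; the sum of the
   squares of the norms of all these vectors is `≤ C ‖ξ‖²` resp. `≤ C ‖η‖²` with a numerical constant `C` (`‖D_n ξ‖ ≤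
   2 · 2^(-n) ‖ξ‖`). So `x ↦ ⟪η, Ψ x ξ⟫` is a normal functional with vectors of total square norm `≤ C ‖ξ‖²`, `≤ C ‖η‖²`,
   and for a normal functional `∑_k ⟪η_k, x ξ_k⟫` one takes the union over `k`. Index type: sigma types over `ℕ` and the
   Kraus index types, in `Type u`.
-/

set_option autoImplicit false

open scoped ComplexOrder InnerProductSpace
open Filter Topology

namespace Pool.Agent.H73.HU

open Pool.Agent.H73.HVN Pool.Agent.H26.SD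

universe u v w

section General

variable {H : Type u} [NormedAddCommGroup H] [InnerProductSpace ℂ H]

private theorem lm_cs {ι : Type*} {f g : ι → ℝ} (hf : ∀ i, 0 ≤ f i) (hg : ∀ i, 0 ≤ g i)
    (hf2 : Summable (fun i => f i ^ 2)) (hg2 : Summable (fun i => g i ^ 2)) :
    Summable (fun i => f i * g i) ∧
      ∑' i, f i * g i ≤ √(∑' i, f i ^ 2) * √(∑' i, g i ^ 2) := by
  have hs : Summable (fun i => f i * g i) := by
    refine Summable.of_nonneg_of_le (fun i => mul_nonneg (hf i) (hg i)) (fun i => ?_)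
      (hf2.add hg2)
    nlinarith [sq_nonneg (f i - g i), sq_nonneg (f i), sq_nonneg (g i)]
  refine ⟨hs, hs.tsum_le_of_sum_le fun s => ?_⟩
  refine (Real.sum_mul_le_sqrt_mul_sqrt s f g).trans ?_
  refine mul_le_mul ?_ ?_ (Real.sqrt_nonneg _) (Real.sqrt_nonneg _)
  · exact Real.sqrt_le_sqrt (hf2.sum_le_tsum s (fun i _ => sq_nonneg _))
  · exact Real.sqrt_le_sqrt (hg2.sum_le_tsum s (fun i _ => sq_nonneg _))

private theorem lm_term (x : H →L[ℂ] H) (u v : H) : ‖⟪v, x u⟫_ℂ‖ ≤ ‖x‖ * (‖v‖ * ‖u‖) := by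
  refine (norm_inner_le_norm _ _).trans ?_
  have := x.le_opNorm u
  calc ‖v‖ * ‖x u‖ ≤ ‖v‖ * (‖x‖ * ‖u‖) := mul_le_mul_of_nonneg_left this (norm_nonneg _)
    _ = _ := by ring

private theorem lm_summable {ι : Type u} {A : ι → H →L[ℂ] H} (hA : IsRow A 1)
    (x : H →L[ℂ] H) (ξ η : H) : Summable (fun i => ⟪A i η, x (A i ξ)⟫_ℂ) := by
  obtain ⟨h1, -⟩ := lm_cs (fun i => norm_nonneg (A i η)) (fun i => norm_nonneg (A i ξ))
    (hA η).1 (hA ξ).1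
  exact Summable.of_norm_bounded (h1.mul_left ‖x‖) (fun i => lm_term x _ _)

private theorem lm_bound {T : (H →L[ℂ] H) →ₗ[ℂ] (H →L[ℂ] H)} (hT : KrM T)
    (x : H →L[ℂ] H) (ξ η : H) : ‖⟪η, T x ξ⟫_ℂ‖ ≤ ‖x‖ * (‖η‖ * ‖ξ‖) := by
  obtain ⟨ι, A, hA, h⟩ := hT
  rw [h]
  obtain ⟨h1, h2⟩ := lm_cs (fun i => norm_nonneg (A i η)) (fun i => norm_nonneg (A i ξ))
    (hA η).1 (hA ξ).1
  have h3 : ‖∑' i, ⟪A i η, x (A i ξ)⟫_ℂ‖ ≤ ∑' i, ‖x‖ * (‖A i η‖ * ‖A i ξ‖) :=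
    tsum_of_norm_bounded (h1.mul_left ‖x‖).hasSum (fun i => lm_term x _ _)
  rw [tsum_mul_left] at h3
  refine h3.trans (mul_le_mul_of_nonneg_left (h2.trans ?_) (norm_nonneg _))
  have h4 : √(∑' i, ‖A i η‖ ^ 2) ≤ ‖η‖ := by
    rw [← Real.sqrt_sq (norm_nonneg η)]
    exact Real.sqrt_le_sqrt (by simpa using (hA η).2)
  have h5 : √(∑' i, ‖A i ξ‖ ^ 2) ≤ ‖ξ‖ := by
    rw [← Real.sqrt_sq (norm_nonneg ξ)]
    exact Real.sqrt_le_sqrt (by simpa using (hA ξ).2)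
  exact mul_le_mul h4 h5 (Real.sqrt_nonneg _) (norm_nonneg _)

private theorem lm_pos {T : (H →L[ℂ] H) →ₗ[ℂ] (H →L[ℂ] H)} (hT : KrM T) (n : ℕ)
    (X : Fin n → Fin n → H →L[ℂ] H)
    (hX : ∀ ξ : Fin n → H, 0 ≤ ∑ i, ∑ j, ⟪ξ i, X i j (ξ j)⟫_ℂ) (ξ : Fin n → H) :
    0 ≤ ∑ i, ∑ j, ⟪ξ i, T (X i j) (ξ j)⟫_ℂ := by
  obtain ⟨ι, A, hA, h⟩ := hT
  have h1 : ∀ k l, HasSum (fun i => ⟪A i (ξ k), X k l (A i (ξ l))⟫_ℂ)
      ⟪ξ k, T (X k l) (ξ l)⟫_ℂ := by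
    intro k l
    rw [h (X k l) (ξ l) (ξ k)]
    exact (lm_summable hA _ _ _).hasSum
  have h2 : HasSum (fun i => ∑ k, ∑ l, ⟪A i (ξ k), X k l (A i (ξ l))⟫_ℂ)
      (∑ k, ∑ l, ⟪ξ k, T (X k l) (ξ l)⟫_ℂ) :=
    hasSum_sum fun k _ => hasSum_sum fun l _ => h1 k l
  rw [← h2.tsum_eq]
  exact tsum_nonneg fun i => hX (fun l => A i (ξ l))

/-- the limit of bounded maps along an ultrafilter -/
private theorem lm_lim [CompleteSpace H] {α : Type w} (𝒰 : Ultrafilter α)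
    (T : α → ((H →L[ℂ] H) →ₗ[ℂ] (H →L[ℂ] H)))
    (hT : ∀ F x (ξ η : H), ‖⟪η, T F x ξ⟫_ℂ‖ ≤ ‖x‖ * (‖η‖ * ‖ξ‖)) :
    ∃ Ψ : (H →L[ℂ] H) →ₗ[ℂ] (H →L[ℂ] H), ∀ (x : H →L[ℂ] H) (ξ η : H),
      Tendsto (fun F => ⟪η, T F x ξ⟫_ℂ) 𝒰 (𝓝 ⟪η, Ψ x ξ⟫_ℂ) := by
  have hex : ∀ (x : H →L[ℂ] H) (η ξ : H), ∃ b : ℂ, ‖b‖ ≤ ‖x‖ * (‖η‖ * ‖ξ‖) ∧
      Tendsto (fun F => ⟪η, T F x ξ⟫_ℂ) 𝒰 (𝓝 b) := by
    intro x η ξ
    have hc : IsCompact (Metric.closedBall (0 : ℂ) (‖x‖ * (‖η‖ * ‖ξ‖))) :=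
      isCompact_closedBall _ _
    have h1 : ((𝒰.map (fun F => ⟪η, T F x ξ⟫_ℂ) : Ultrafilter ℂ) : Filter ℂ) ≤
        𝓟 (Metric.closedBall (0 : ℂ) (‖x‖ * (‖η‖ * ‖ξ‖))) := by
      rw [Ultrafilter.coe_map, le_principal_iff, mem_map]
      refine univ_mem' fun F => ?_
      simp only [Set.mem_preimage, Metric.mem_closedBall, dist_zero_right]
      exact hT F x ξ η
    obtain ⟨b, hb, hb2⟩ := hc.ultrafilter_le_nhds _ h1
    refine ⟨b, by simpa using hb, ?_⟩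
    rw [Ultrafilter.coe_map] at hb2
    exact hb2
  choose b hb1 hb2 using hex
  have hadd : ∀ x η η' ξ, b x (η + η') ξ = b x η ξ + b x η' ξ := by
    intro x η η' ξ
    refine tendsto_nhds_unique (hb2 x (η + η') ξ) ?_
    have h := (hb2 x η ξ).add (hb2 x η' ξ)
    refine h.congr fun F => ?_
    rw [inner_add_left]
  have hsmul : ∀ x (c : ℂ) η ξ, b x (c • η) ξ = (starRingEnd ℂ) c * b x η ξ := by
    intro x c η ξ
    refine tendsto_nhds_unique (hb2 x (c • η) ξ) ?_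
    refine ((hb2 x η ξ).const_mul ((starRingEnd ℂ) c)).congr fun F => ?_
    rw [inner_smul_left]
  have hadd2 : ∀ x η ξ ξ', b x η (ξ + ξ') = b x η ξ + b x η ξ' := by
    intro x η ξ ξ'
    refine tendsto_nhds_unique (hb2 x η (ξ + ξ')) ?_
    refine ((hb2 x η ξ).add (hb2 x η ξ')).congr fun F => ?_
    rw [map_add, inner_add_right]
  have hsmul2 : ∀ x (c : ℂ) η ξ, b x η (c • ξ) = c * b x η ξ := by
    intro x c η ξ
    refine tendsto_nhds_unique (hb2 x η (c • ξ)) ?_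
    refine ((hb2 x η ξ).const_mul c).congr fun F => ?_
    rw [map_smul, inner_smul_right]
  have hA : ∀ x : H →L[ℂ] H, ∃ A : H →L[ℂ] H, ∀ ξ η : H, ⟪η, A ξ⟫_ℂ = b x η ξ := by
    intro x
    let F : H →ₗ⋆[ℂ] H →ₗ[ℂ] ℂ := LinearMap.mk₂'ₛₗ (starRingEnd ℂ) (RingHom.id ℂ)
      (fun η ξ => b x η ξ) (fun η η' ξ => hadd x η η' ξ)
      (fun c η ξ => by rw [smul_eq_mul]; exact hsmul x c η ξ)
      (fun η ξ ξ' => hadd2 x η ξ ξ')
      (fun c η ξ => by rw [RingHom.id_apply, smul_eq_mul]; exact hsmul2 x c η ξ)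
    have hF : ∀ η ξ, F η ξ = b x η ξ := fun η ξ => rfl
    let B : H →L⋆[ℂ] H →L[ℂ] ℂ := F.mkContinuous₂ ‖x‖ (fun η ξ => by
      rw [hF, mul_assoc]
      exact hb1 x η ξ)
    refine ⟨ContinuousLinearMap.adjoint (InnerProductSpace.continuousLinearMapOfBilin B), ?_⟩
    intro ξ η
    rw [ContinuousLinearMap.adjoint_inner_right, InnerProductSpace.continuousLinearMapOfBilin_apply]
    exact hF η ξ
  choose A hA using hA
  refine ⟨{ toFun := A, map_add' := ?_, map_smul' := ?_ }, fun x ξ η => ?_⟩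
  · intro x y
    ext ξ
    refine ext_inner_left ℂ fun η => ?_
    rw [add_apply, inner_add_right, hA, hA, hA]
    refine tendsto_nhds_unique (hb2 (x + y) η ξ) ?_
    refine ((hb2 x η ξ).add (hb2 y η ξ)).congr fun F => ?_
    rw [map_add, add_apply, inner_add_right]
  · intro c x
    ext ξ
    refine ext_inner_left ℂ fun η => ?_
    rw [RingHom.id_apply, smul_apply, inner_smul_right, hA, hA]
    refine tendsto_nhds_unique (hb2 (c • x) η ξ) ?_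
    refine ((hb2 x η ξ).const_mul c).congr fun F => ?_
    rw [map_smul, smul_apply, inner_smul_right]
  · change Tendsto _ _ (𝓝 ⟪η, A x ξ⟫_ℂ)
    rw [hA]
    exact hb2 x η ξ

/-- `φ` is a normal functional with vectors of total square norms `≤ a`, `≤ b` -/
private def Rp (𝓜 : Subalgebra ℂ (H →L[ℂ] H)) (φ : 𝓜 → ℂ) (a b : ℝ) : Prop :=
  ∃ (ι : Type u) (ξ η : ι → H), (Summable fun i => ‖ξ i‖ ^ 2) ∧ ∑' i, ‖ξ i‖ ^ 2 ≤ a ∧
    (Summable fun i => ‖η i‖ ^ 2) ∧ ∑' i, ‖η i‖ ^ 2 ≤ b ∧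
    ∀ x : 𝓜, φ x = ∑' i, ⟪η i, (x : H →L[ℂ] H) (ξ i)⟫_ℂ

private theorem rp_mono {𝓜 : Subalgebra ℂ (H →L[ℂ] H)} {φ : 𝓜 → ℂ} {a b a' b' : ℝ}
    (h : Rp 𝓜 φ a b) (ha : a ≤ a') (hb : b ≤ b') : Rp 𝓜 φ a' b' := by
  obtain ⟨ι, ξ, η, h1, h2, h3, h4, h5⟩ := h
  exact ⟨ι, ξ, η, h1, h2.trans ha, h3, h4.trans hb, h5⟩

private theorem lm_summable2 {ι : Type*} {ξ η : ι → H} (h1 : Summable fun i => ‖ξ i‖ ^ 2)
    (h2 : Summable fun i => ‖η i‖ ^ 2) (x : H →L[ℂ] H) :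
    Summable (fun i => ⟪η i, x (ξ i)⟫_ℂ) := by
  obtain ⟨h3, -⟩ := lm_cs (fun i => norm_nonneg (η i)) (fun i => norm_nonneg (ξ i)) h2 h1
  exact Summable.of_norm_bounded (h3.mul_left ‖x‖) (fun i => lm_term x _ _)

/-- unions of families of normal functionals -/
private theorem rp_union {𝓜 : Subalgebra ℂ (H →L[ℂ] H)} {κ : Type u} {φ : κ → 𝓜 → ℂ}
    {a b : κ → ℝ} (h : ∀ k, Rp 𝓜 (φ k) (a k) (b k)) (ha : Summable a) (hb : Summable b) :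
    Rp 𝓜 (fun x => ∑' k, φ k x) (∑' k, a k) (∑' k, b k) := by
  choose ι ξ η h1 h2 h3 h4 h5 using h
  have hξ : Summable (fun p : Σ k, ι k => ‖ξ p.1 p.2‖ ^ 2) := by
    rw [summable_sigma_of_nonneg (fun p => sq_nonneg _)]
    exact ⟨h1, Summable.of_nonneg_of_le (fun k => tsum_nonneg fun i => sq_nonneg _) h2 ha⟩
  have hη : Summable (fun p : Σ k, ι k => ‖η p.1 p.2‖ ^ 2) := by
    rw [summable_sigma_of_nonneg (fun p => sq_nonneg _)]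
    exact ⟨h3, Summable.of_nonneg_of_le (fun k => tsum_nonneg fun i => sq_nonneg _) h4 hb⟩
  refine ⟨Σ k, ι k, fun p => ξ p.1 p.2, fun p => η p.1 p.2, hξ, ?_, hη, ?_, ?_⟩
  · rw [hξ.tsum_sigma]
    exact Summable.tsum_le_tsum h2
      (Summable.of_nonneg_of_le (fun k => tsum_nonneg fun i => sq_nonneg _) h2 ha) ha
  · rw [hη.tsum_sigma]
    exact Summable.tsum_le_tsum h4
      (Summable.of_nonneg_of_le (fun k => tsum_nonneg fun i => sq_nonneg _) h4 hb) hb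
  · intro x
    have hs := lm_summable2 hξ hη (x : H →L[ℂ] H)
    rw [hs.tsum_sigma]
    exact tsum_congr fun k => h5 k x

private theorem rp_nat {𝓜 : Subalgebra ℂ (H →L[ℂ] H)} {φ : ℕ → 𝓜 → ℂ}
    {a b : ℕ → ℝ} (h : ∀ k, Rp 𝓜 (φ k) (a k) (b k)) (ha : Summable a) (hb : Summable b) :
    Rp 𝓜 (fun x => ∑' k, φ k x) (∑' k, a k) (∑' k, b k) := by
  have h1 := rp_union (κ := ULift.{u} ℕ) (φ := fun k => φ k.down) (a := fun k => a k.down)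
    (b := fun k => b k.down) (fun k => h k.down) ((Equiv.ulift.summable_iff).2 ha)
    ((Equiv.ulift.summable_iff).2 hb)
  have e1 : ∑' k : ULift.{u} ℕ, a k.down = ∑' k, a k := Equiv.ulift.tsum_eq a
  have e2 : ∑' k : ULift.{u} ℕ, b k.down = ∑' k, b k := Equiv.ulift.tsum_eq b
  have e3 : (fun x : 𝓜 => ∑' k : ULift.{u} ℕ, φ k.down x) = fun x => ∑' k, φ k x := by
    funext x
    exact Equiv.ulift.tsum_eq (fun k => φ k x)
  rw [e1, e2, e3] at h1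
  exact h1

private theorem rp_add {𝓜 : Subalgebra ℂ (H →L[ℂ] H)} {φ ψ : 𝓜 → ℂ}
    {a b a' b' : ℝ} (h : Rp 𝓜 φ a b) (h' : Rp 𝓜 ψ a' b') :
    Rp 𝓜 (fun x => φ x + ψ x) (a + a') (b + b') := by
  obtain ⟨ι, ξ, η, h1, h2, h3, h4, h5⟩ := h
  obtain ⟨ι', ξ', η', h1', h2', h3', h4', h5'⟩ := h'
  have s1 : HasSum (fun p : ι ⊕ ι' => ‖Sum.elim ξ ξ' p‖ ^ 2) (∑' i, ‖ξ i‖ ^ 2 + ∑' i, ‖ξ' i‖ ^ 2) :=
    HasSum.sum (by simpa [Function.comp_def] using h1.hasSum)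
      (by simpa [Function.comp_def] using h1'.hasSum)
  have s2 : HasSum (fun p : ι ⊕ ι' => ‖Sum.elim η η' p‖ ^ 2) (∑' i, ‖η i‖ ^ 2 + ∑' i, ‖η' i‖ ^ 2) :=
    HasSum.sum (by simpa [Function.comp_def] using h3.hasSum)
      (by simpa [Function.comp_def] using h3'.hasSum)
  refine ⟨ι ⊕ ι', Sum.elim ξ ξ', Sum.elim η η', s1.summable, ?_, s2.summable, ?_, ?_⟩
  · rw [s1.tsum_eq]; exact add_le_add h2 h2'
  · rw [s2.tsum_eq]; exact add_le_add h4 h4'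
  · intro x
    have s3 : HasSum (fun p : ι ⊕ ι' => ⟪Sum.elim η η' p, (x : H →L[ℂ] H) (Sum.elim ξ ξ' p)⟫_ℂ)
        (φ x + ψ x) := by
      refine HasSum.sum ?_ ?_
      · rw [h5 x]
        simpa [Function.comp_def] using (lm_summable2 h1 h3 (x : H →L[ℂ] H)).hasSum
      · rw [h5' x]
        simpa [Function.comp_def] using (lm_summable2 h1' h3' (x : H →L[ℂ] H)).hasSum
    exact s3.tsum_eq.symm

private theorem rp_kr (𝓜 : Subalgebra ℂ (H →L[ℂ] H)) {T : (H →L[ℂ] H) →ₗ[ℂ] (H →L[ℂ] H)}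
    (hT : KrM T) (u v : H) {s : ℝ} (hs : 0 < s) :
    Rp 𝓜 (fun x => ⟪v, T (x : H →L[ℂ] H) u⟫_ℂ) (s ^ 2 * ‖u‖ ^ 2) ((s ^ 2)⁻¹ * ‖v‖ ^ 2) := by
  obtain ⟨ι, A, hA, h⟩ := hT
  have e1 : ∀ (c : ℝ) (w : H), 0 < c → ‖((c : ℝ) : ℂ) • w‖ ^ 2 = c ^ 2 * ‖w‖ ^ 2 := by
    intro c w hc
    rw [norm_smul, Complex.norm_real, Real.norm_of_nonneg hc.le, mul_pow]
  have hs' : 0 < s⁻¹ := inv_pos.2 hs
  refine ⟨ι, fun i => ((s : ℝ) : ℂ) • A i u, fun i => ((s⁻¹ : ℝ) : ℂ) • A i v, ?_, ?_, ?_, ?_, ?_⟩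
  · simp only [e1 s _ hs]
    exact (hA u).1.mul_left _
  · simp only [e1 s _ hs]
    rw [tsum_mul_left]
    have := (hA u).2
    rw [one_mul] at this
    exact mul_le_mul_of_nonneg_left this (by positivity)
  · simp only [e1 s⁻¹ _ hs']
    exact (hA v).1.mul_left _
  · simp only [e1 s⁻¹ _ hs']
    rw [tsum_mul_left, inv_pow]
    have := (hA v).2
    rw [one_mul] at this
    exact mul_le_mul_of_nonneg_left this (by positivity)
  · intro x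
    beta_reduce
    rw [h]
    refine tsum_congr fun i => ?_
    rw [map_smul, inner_smul_left, inner_smul_right, Complex.conj_ofReal, ← mul_assoc,
      ← Complex.ofReal_mul, inv_mul_cancel₀ hs.ne', Complex.ofReal_one, one_mul]

/-- the telescoping argument -/
private theorem rp_tele (𝓜 : Subalgebra ℂ (H →L[ℂ] H)) (Ψ : 𝓜 → (H →L[ℂ] H))
    (ξ η : H) (p q : ℕ → H) (T : ℕ → (H →L[ℂ] H) →ₗ[ℂ] (H →L[ℂ] H)) (hT : ∀ n, KrM (T n))
    (hp0 : p 0 = 0) (hp : Tendsto p atTop (𝓝 ξ)) (hq : Tendsto q atTop (𝓝 η))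
    (hpn : ∀ n, ‖p n‖ ≤ ‖ξ‖) (hqn : ∀ n, ‖q n‖ ≤ ‖η‖)
    (hpd : ∀ n, ‖p (n + 1) - p n‖ ≤ 2 * (1 / 4) ^ n * ‖ξ‖)
    (hqd : ∀ n, ‖q (n + 1) - q n‖ ≤ 2 * (1 / 4) ^ n * ‖η‖)
    (h1 : ∀ n (x : 𝓜), ⟪q (n + 1) - q n, Ψ x (p (n + 1))⟫_ℂ =
      ⟪q (n + 1) - q n, T n (x : H →L[ℂ] H) (p (n + 1))⟫_ℂ)
    (h2 : ∀ n (x : 𝓜), ⟪q n, Ψ x (p (n + 1) - p n)⟫_ℂ =
      ⟪q n, T n (x : H →L[ℂ] H) (p (n + 1) - p n)⟫_ℂ) :
    Rp 𝓜 (fun x => ⟪η, Ψ x ξ⟫_ℂ) (7 * ‖ξ‖ ^ 2) (7 * ‖η‖ ^ 2) := by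
  have hstep : ∀ n, Rp 𝓜 (fun x => ⟪q (n + 1) - q n, T n (x : H →L[ℂ] H) (p (n + 1))⟫_ℂ +
      ⟪q n, T n (x : H →L[ℂ] H) (p (n + 1) - p n)⟫_ℂ)
      (5 * (1 / 4) ^ n * ‖ξ‖ ^ 2) (5 * (1 / 4) ^ n * ‖η‖ ^ 2) := by
    intro n
    have hs : (0 : ℝ) < (1 / 2) ^ n := by positivity
    have hs2 : (0 : ℝ) < 2 ^ n := by positivity
    have e1 : ((1 / 2 : ℝ) ^ n) ^ 2 = (1 / 4) ^ n := by
      rw [← pow_mul, mul_comm, pow_mul]; norm_num
    have e2 : ((2 : ℝ) ^ n) ^ 2 = 4 ^ n := by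
      rw [← pow_mul, mul_comm, pow_mul]; norm_num
    have e3 : ((1 / 4 : ℝ) ^ n)⁻¹ = 4 ^ n := by
      rw [← inv_pow]; norm_num
    have e4 : ((4 : ℝ) ^ n)⁻¹ = (1 / 4) ^ n := by
      rw [← inv_pow]; norm_num
    have e5 : (4 : ℝ) ^ n * (1 / 4) ^ n = 1 := by
      rw [← mul_pow]; norm_num
    have r1 := rp_kr 𝓜 (hT n) (p (n + 1)) (q (n + 1) - q n) hs
    have r2 := rp_kr 𝓜 (hT n) (p (n + 1) - p n) (q n) hs2
    rw [e1, e3] at r1
    rw [e2, e4] at r2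
    refine rp_mono (rp_add r1 r2) ?_ ?_
    · have a1 : ‖p (n + 1)‖ ^ 2 ≤ ‖ξ‖ ^ 2 := pow_le_pow_left₀ (norm_nonneg _) (hpn _) 2
      have a2 : ‖p (n + 1) - p n‖ ^ 2 ≤ (2 * (1 / 4) ^ n * ‖ξ‖) ^ 2 :=
        pow_le_pow_left₀ (norm_nonneg _) (hpd _) 2
      have a3 := mul_le_mul_of_nonneg_left a1 (by positivity : (0 : ℝ) ≤ (1 / 4) ^ n)
      have a4 := mul_le_mul_of_nonneg_left a2 (by positivity : (0 : ℝ) ≤ 4 ^ n)
      have a5 : (4 : ℝ) ^ n * (2 * (1 / 4) ^ n * ‖ξ‖) ^ 2 = 4 * (1 / 4) ^ n * ‖ξ‖ ^ 2 := by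
        calc (4 : ℝ) ^ n * (2 * (1 / 4) ^ n * ‖ξ‖) ^ 2
            = 4 * (4 ^ n * (1 / 4) ^ n) * (1 / 4) ^ n * ‖ξ‖ ^ 2 := by ring
          _ = _ := by rw [e5, mul_one]
      rw [a5] at a4
      linarith
    · have a1 : ‖q n‖ ^ 2 ≤ ‖η‖ ^ 2 := pow_le_pow_left₀ (norm_nonneg _) (hqn _) 2
      have a2 : ‖q (n + 1) - q n‖ ^ 2 ≤ (2 * (1 / 4) ^ n * ‖η‖) ^ 2 :=
        pow_le_pow_left₀ (norm_nonneg _) (hqd _) 2
      have a3 := mul_le_mul_of_nonneg_left a1 (by positivity : (0 : ℝ) ≤ (1 / 4) ^ n)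
      have a4 := mul_le_mul_of_nonneg_left a2 (by positivity : (0 : ℝ) ≤ 4 ^ n)
      have a5 : (4 : ℝ) ^ n * (2 * (1 / 4) ^ n * ‖η‖) ^ 2 = 4 * (1 / 4) ^ n * ‖η‖ ^ 2 := by
        calc (4 : ℝ) ^ n * (2 * (1 / 4) ^ n * ‖η‖) ^ 2
            = 4 * (4 ^ n * (1 / 4) ^ n) * (1 / 4) ^ n * ‖η‖ ^ 2 := by ring
          _ = _ := by rw [e5, mul_one]
      rw [a5] at a4
      linarith
  have hgeo : Summable (fun n : ℕ => (1 / 4 : ℝ) ^ n) :=
    summable_geometric_of_lt_one (by norm_num) (by norm_num)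
  have hgv : ∑' n : ℕ, (1 / 4 : ℝ) ^ n = 4 / 3 := by
    rw [tsum_geometric_of_lt_one (by norm_num) (by norm_num)]
    norm_num
  have hsum : ∀ c : ℝ, Summable (fun n : ℕ => 5 * (1 / 4 : ℝ) ^ n * c) := fun c =>
    (hgeo.mul_left 5).mul_right c
  have hval : ∀ c : ℝ, ∑' n : ℕ, 5 * (1 / 4 : ℝ) ^ n * c = 20 / 3 * c := by
    intro c
    rw [tsum_mul_right, tsum_mul_left, hgv]
    ring
  have hR := rp_nat hstep (hsum (‖ξ‖ ^ 2)) (hsum (‖η‖ ^ 2))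
  rw [hval, hval] at hR
  have hfun : (fun x : 𝓜 => ∑' n, (⟪q (n + 1) - q n, T n (x : H →L[ℂ] H) (p (n + 1))⟫_ℂ +
      ⟪q n, T n (x : H →L[ℂ] H) (p (n + 1) - p n)⟫_ℂ)) = fun x => ⟪η, Ψ x ξ⟫_ℂ := by
    funext x
    have t1 : ∀ n, ⟪q (n + 1) - q n, T n (x : H →L[ℂ] H) (p (n + 1))⟫_ℂ +
        ⟪q n, T n (x : H →L[ℂ] H) (p (n + 1) - p n)⟫_ℂ =
        ⟪q (n + 1), Ψ x (p (n + 1))⟫_ℂ - ⟪q n, Ψ x (p n)⟫_ℂ := by
      intro n
      rw [← h1, ← h2, inner_sub_left, map_sub, inner_sub_right]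
      ring
    have t2 : Tendsto (fun n => ⟪q n, Ψ x (p n)⟫_ℂ) atTop (𝓝 ⟪η, Ψ x ξ⟫_ℂ) :=
      hq.inner (((Ψ x).continuous.tendsto ξ).comp hp)
    have t3 : ∀ N, ∑ n ∈ Finset.range N, (⟪q (n + 1), Ψ x (p (n + 1))⟫_ℂ - ⟪q n, Ψ x (p n)⟫_ℂ) =
        ⟪q N, Ψ x (p N)⟫_ℂ := by
      intro N
      rw [Finset.sum_range_sub (fun n => ⟪q n, Ψ x (p n)⟫_ℂ), hp0, map_zero, inner_zero_right,
        sub_zero]
    have t4 : Summable (fun n => ⟪q (n + 1) - q n, T n (x : H →L[ℂ] H) (p (n + 1))⟫_ℂ +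
        ⟪q n, T n (x : H →L[ℂ] H) (p (n + 1) - p n)⟫_ℂ) := by
      refine Summable.of_norm_bounded (g := fun n : ℕ =>
        (1 / 4 : ℝ) ^ n * (4 * ‖(x : H →L[ℂ] H)‖ * (‖η‖ * ‖ξ‖))) (hgeo.mul_right _) (fun n => ?_)
      refine (norm_add_le _ _).trans ?_
      have b1 := lm_bound (hT n) (x : H →L[ℂ] H) (p (n + 1)) (q (n + 1) - q n)
      have b2 := lm_bound (hT n) (x : H →L[ℂ] H) (p (n + 1) - p n) (q n)
      have b3 : ‖q (n + 1) - q n‖ * ‖p (n + 1)‖ ≤ (2 * (1 / 4) ^ n * ‖η‖) * ‖ξ‖ :=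
        mul_le_mul (hqd n) (hpn _) (norm_nonneg _) (by positivity)
      have b4 : ‖q n‖ * ‖p (n + 1) - p n‖ ≤ ‖η‖ * (2 * (1 / 4) ^ n * ‖ξ‖) :=
        mul_le_mul (hqn n) (hpd _) (norm_nonneg _) (by positivity)
      have b5 := mul_le_mul_of_nonneg_left b3 (norm_nonneg (x : H →L[ℂ] H))
      have b6 := mul_le_mul_of_nonneg_left b4 (norm_nonneg (x : H →L[ℂ] H))
      have b7 := add_le_add (b1.trans b5) (b2.trans b6)
      refine b7.trans (le_of_eq ?_)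
      ring
    have t5 := t4.hasSum.tendsto_sum_nat
    simp only [t1, t3] at t5
    have t6 : ∀ n, ⟪q (n + 1), Ψ x (p (n + 1))⟫_ℂ - ⟪q n, Ψ x (p n)⟫_ℂ =
      ⟪q (n + 1) - q n, T n (x : H →L[ℂ] H) (p (n + 1))⟫_ℂ +
        ⟪q n, T n (x : H →L[ℂ] H) (p (n + 1) - p n)⟫_ℂ := fun n => (t1 n).symm
    simp only [t6] at t5
    exact tendsto_nhds_unique t5 t2
  rw [hfun] at hR
  refine rp_mono hR ?_ ?_
  · nlinarith [sq_nonneg ‖ξ‖]
  · nlinarith [sq_nonneg ‖η‖]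

end General

section Proj

variable {W : Type u} {J : Type w}

open Classical in
/-- the projection onto the functions supported on `{y | act y ⊆ F}` -/
private noncomputable def pj (act : W → Finset J) (F : Finset J) : L2 W →L[ℂ] L2 W :=
  wop (Equiv.refl W) (fun y => if act y ⊆ F then (1 : ℂ) else 0)

private theorem pj_apply (act : W → Finset J) (F : Finset J) (f : L2 W) (y : W) :
    pj act F f y = (open Classical in if act y ⊆ F then f y else 0) := by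
  classical
  unfold pj
  rw [wop_apply (C := 1)]
  · simp only [Equiv.refl_apply]
    split_ifs <;> simp
  · intro z
    split_ifs <;> simp

private theorem pj_norm (act : W → Finset J) (F : Finset J) (f : L2 W) : ‖pj act F f‖ ≤ ‖f‖ := by
  have h : ‖pj act F f‖ ^ 2 ≤ ‖f‖ ^ 2 := by
    refine hasSum_le (fun y => ?_) (hasSum_normsq (pj act F f)) (hasSum_normsq f)
    rw [pj_apply]
    split_ifs
    · exact le_refl _
    · simp
  exact le_of_sq_le_sq h (norm_nonneg _)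

private theorem pj_comp (act : W → Finset J) {F F' : Finset J} (h : F ⊆ F') (f : L2 W) :
    pj act F' (pj act F f) = pj act F f := by
  apply lp.ext
  funext y
  rw [pj_apply, pj_apply]
  split_ifs with h1 h2 h2
  · rfl
  · rfl
  · exact absurd (h2.trans h) h1
  · rfl

private theorem pj_adj (act : W → Finset J) (F : Finset J) (f g : L2 W) :
    ⟪pj act F f, g⟫_ℂ = ⟪f, pj act F g⟫_ℂ := by
  rw [lp.inner_eq_tsum, lp.inner_eq_tsum]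
  refine tsum_congr fun y => ?_
  rw [pj_apply, pj_apply]
  split_ifs
  · rfl
  · rw [inner_zero_left, inner_zero_right]

private theorem pj_δ (act : W → Finset J) (F : Finset J) (y : W) :
    pj act F (δ y) = (open Classical in if act y ⊆ F then (δ y : L2 W) else 0) := by
  apply lp.ext
  funext z
  rw [pj_apply]
  by_cases hzy : z = y
  · rw [hzy]
    split_ifs
    · rfl
    · rfl
  · rw [δ_ne hzy]
    split_ifs
    · rw [δ_ne hzy]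
    · rfl
    · rw [δ_ne hzy]
    · rfl

/-- corners agree when the entries agree -/
private theorem pj_corner (act : W → Finset J) (F : Finset J) (X Y : L2 W →L[ℂ] L2 W)
    (h : ∀ z y, act z ⊆ F → act y ⊆ F → cf X z y = cf Y z y) (ξ η : L2 W) :
    ⟪pj act F η, X (pj act F ξ)⟫_ℂ = ⟪pj act F η, Y (pj act F ξ)⟫_ℂ := by
  have h1 : (pj act F).comp (X.comp (pj act F)) = (pj act F).comp (Y.comp (pj act F)) := by
    refine ext_δ fun y => ?_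
    simp only [ContinuousLinearMap.comp_apply]
    rw [pj_δ]
    split_ifs with hy
    · apply lp.ext
      funext z
      rw [pj_apply, pj_apply]
      split_ifs with hz
      · exact h z y hz hy
      · rfl
    · simp only [map_zero]
  rw [pj_adj, pj_adj]
  exact congrArg (fun A : L2 W →L[ℂ] L2 W => ⟪η, A ξ⟫_ℂ) h1

private theorem pj_approx (act : W → Finset J) (f : L2 W) {ε : ℝ} (hε : 0 < ε) :
    ∃ F₀ : Finset J, ∀ F, F₀ ⊆ F → ‖f - pj act F f‖ ≤ ε := by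
  classical
  have h1 := hasSum_δ f
  rw [HasSum, SummationFilter.unconditional_filter] at h1
  obtain ⟨s, hs⟩ := ((Metric.tendsto_nhds.1 h1) (ε / 2) (by positivity)).exists
  refine ⟨s.biUnion act, fun F hF => ?_⟩
  set g : L2 W := ∑ x ∈ s, f x • (δ x : L2 W) with hg
  have h2 : pj act F g = g := by
    rw [hg, map_sum]
    refine Finset.sum_congr rfl fun x hx => ?_
    rw [map_smul, pj_δ, if_pos ((Finset.subset_biUnion_of_mem act hx).trans hF)]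
  have h3 : f - pj act F f = (f - g) - pj act F (f - g) := by
    rw [map_sub, h2]
    abel
  have h4 : ‖f - g‖ ≤ ε / 2 := by
    rw [← dist_eq_norm, dist_comm]
    exact hs.le
  rw [h3]
  calc ‖(f - g) - pj act F (f - g)‖ ≤ ‖f - g‖ + ‖pj act F (f - g)‖ := norm_sub_le _ _
    _ ≤ ε / 2 + ε / 2 := add_le_add h4 ((pj_norm act F _).trans h4)
    _ = ε := by ring

private theorem pj_seq (act : W → Finset J) (ξ η : L2 W) :
    ∃ G : ℕ → Finset J, Monotone G ∧ (∀ n, ‖ξ - pj act (G n) ξ‖ ≤ (1 / 4) ^ (n + 1) * ‖ξ‖) ∧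
      ∀ n, ‖η - pj act (G n) η‖ ≤ (1 / 4) ^ (n + 1) * ‖η‖ := by
  classical
  have key : ∀ (f : L2 W) (n : ℕ), ∃ F₀ : Finset J, ∀ F, F₀ ⊆ F →
      ‖f - pj act F f‖ ≤ (1 / 4) ^ (n + 1) * ‖f‖ := by
    intro f n
    by_cases hf : f = 0
    · refine ⟨∅, fun F _ => ?_⟩
      rw [hf, map_zero, sub_zero, norm_zero, mul_zero]
    · exact pj_approx act f (mul_pos (by positivity) (norm_pos_iff.2 hf))
  choose F₁ h1 using key ξ
  choose F₂ h2 using key η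
  let G : ℕ → Finset J := fun n => (Finset.range (n + 1)).biUnion (fun k => F₁ k ∪ F₂ k)
  have hG : ∀ n, F₁ n ∪ F₂ n ⊆ G n := fun n =>
    Finset.subset_biUnion_of_mem (fun k => F₁ k ∪ F₂ k) (Finset.self_mem_range_succ n)
  refine ⟨G, ?_, fun n => ?_, fun n => ?_⟩
  · intro a b hab
    exact Finset.biUnion_subset_biUnion_of_subset_left _
      (Finset.range_mono (Nat.succ_le_succ hab))
  · exact h1 n _ (Finset.subset_union_left.trans (hG n))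
  · exact h2 n _ (Finset.subset_union_right.trans (hG n))

private theorem rp_vec {𝓜 : Subalgebra ℂ (L2 W →L[ℂ] L2 W)}
    (T : Finset J → ((L2 W →L[ℂ] L2 W) →ₗ[ℂ] (L2 W →L[ℂ] L2 W))) (hT : ∀ F, KrM (T F))
    (act : W → Finset J) (Ψ : 𝓜 → (L2 W →L[ℂ] L2 W))
    (hΨ : ∀ (x : 𝓜) (F : Finset J) z y, act z ⊆ F → act y ⊆ F →
      cf (Ψ x) z y = cf (T F (x : L2 W →L[ℂ] L2 W)) z y) (ξ η : L2 W) :
    Rp 𝓜 (fun x => ⟪η, Ψ x ξ⟫_ℂ) (7 * ‖ξ‖ ^ 2) (7 * ‖η‖ ^ 2) := by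
  obtain ⟨G, hG, h1, h2⟩ := pj_seq act ξ η
  let sq : L2 W → ℕ → L2 W := fun f n => Nat.casesOn n 0 (fun k => pj act (G k) f)
  have s0 : ∀ f, sq f 0 = 0 := fun f => rfl
  have s1 : ∀ f n, sq f (n + 1) = pj act (G n) f := fun f n => rfl
  have hfix : ∀ f n, pj act (G n) (sq f n) = sq f n := by
    intro f n
    cases n with
    | zero => rw [s0, map_zero]
    | succ k => rw [s1]; exact pj_comp act (hG (Nat.le_succ k)) f
  have hfix' : ∀ f n, pj act (G n) (sq f (n + 1)) = sq f (n + 1) := by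
    intro f n
    rw [s1]
    exact pj_comp act (le_refl _) f
  have hn : ∀ f n, ‖sq f n‖ ≤ ‖f‖ := by
    intro f n
    cases n with
    | zero => rw [s0, norm_zero]; exact norm_nonneg _
    | succ k => rw [s1]; exact pj_norm act _ f
  have hd : ∀ f, (∀ n, ‖f - pj act (G n) f‖ ≤ (1 / 4) ^ (n + 1) * ‖f‖) → ∀ n,
      ‖sq f (n + 1) - sq f n‖ ≤ 2 * (1 / 4) ^ n * ‖f‖ := by
    intro f hf n
    cases n with
    | zero =>
      rw [s0, sub_zero, s1, pow_zero, mul_one]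
      have := pj_norm act (G 0) f
      have := norm_nonneg f
      linarith
    | succ k =>
      rw [s1, s1]
      have e : pj act (G (k + 1)) f - pj act (G k) f =
          (f - pj act (G k) f) - (f - pj act (G (k + 1)) f) := by abel
      rw [e]
      have a1 := norm_sub_le (f - pj act (G k) f) (f - pj act (G (k + 1)) f)
      have a2 := hf k
      have a3 := hf (k + 1)
      have a4 : (1 / 4 : ℝ) ^ (k + 1 + 1) * ‖f‖ ≤ (1 / 4) ^ (k + 1) * ‖f‖ := by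
        refine mul_le_mul_of_nonneg_right ?_ (norm_nonneg _)
        exact pow_le_pow_of_le_one (by norm_num) (by norm_num) (Nat.le_succ _)
      linarith
  have hlim : ∀ f, (∀ n, ‖f - pj act (G n) f‖ ≤ (1 / 4) ^ (n + 1) * ‖f‖) →
      Tendsto (sq f) atTop (𝓝 f) := by
    intro f hf
    rw [← tendsto_add_atTop_iff_nat 1, tendsto_iff_norm_sub_tendsto_zero]
    have g1 : Tendsto (fun n : ℕ => (1 / 4 : ℝ) ^ (n + 1) * ‖f‖) atTop (𝓝 0) := by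
      have := ((tendsto_pow_atTop_nhds_zero_of_lt_one (r := (1 / 4 : ℝ)) (by norm_num)
        (by norm_num)).comp (tendsto_add_atTop_nat 1)).mul_const ‖f‖
      simpa [Function.comp_def] using this
    refine squeeze_zero (fun n => norm_nonneg _) (fun n => ?_) g1
    rw [s1, norm_sub_rev]
    exact hf n
  have hcor : ∀ n (x : 𝓜) (u v : L2 W), pj act (G n) u = u → pj act (G n) v = v →
      ⟪v, Ψ x u⟫_ℂ = ⟪v, T (G n) (x : L2 W →L[ℂ] L2 W) u⟫_ℂ := by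
    intro n x u v hu hv
    have := pj_corner act (G n) (Ψ x) (T (G n) (x : L2 W →L[ℂ] L2 W))
      (fun z y hz hy => hΨ x (G n) z y hz hy) u v
    rw [hu, hv] at this
    exact this
  refine rp_tele 𝓜 Ψ ξ η (sq ξ) (sq η) (fun n => T (G n)) (fun n => hT _) (s0 ξ) (hlim ξ h1)
    (hlim η h2) (hn ξ) (hn η) (hd ξ h1) (hd η h2) (fun n x => ?_) (fun n x => ?_)
  · exact hcor n x _ _ (hfix' ξ n) (by rw [map_sub, hfix, hfix'])
  · exact hcor n x _ _ (by rw [map_sub, hfix, hfix']) (hfix η n)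

end Proj

theorem exists_lim {W : Type u} {J : Type w} (𝓜 : Subalgebra ℂ (L2 W →L[ℂ] L2 W))
    (T : Finset J → ((L2 W →L[ℂ] L2 W) →ₗ[ℂ] (L2 W →L[ℂ] L2 W))) (hT : ∀ F, KrM (T F))
    (act : W → Finset J)
    (hc : ∀ x ∈ 𝓜, ∀ F F' : Finset J, F ⊆ F' → ∀ z y, act z ⊆ F → act y ⊆ F →
      cf (T F' x) z y = cf (T F x) z y)
    (hmem : ∀ x ∈ 𝓜, ∀ x' : L2 W →L[ℂ] L2 W, (∀ (F : Finset J) z y, act z ⊆ F → act y ⊆ F →
      cf x' z y = cf (T F x) z y) → x' ∈ 𝓜) :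
    ∃ Φ : 𝓜 →ₗ[ℂ] 𝓜, IsNormalMap 𝓜 Φ ∧ IsCP 𝓜 Φ ∧
      ∀ (x : 𝓜) (F : Finset J) (z y : W), act z ⊆ F → act y ⊆ F →
        cf (Φ x : L2 W →L[ℂ] L2 W) z y = cf (T F (x : L2 W →L[ℂ] L2 W)) z y := by
  classical
  let 𝒰 : Ultrafilter (Finset J) := Ultrafilter.of atTop
  have h𝒰 : (𝒰 : Filter (Finset J)) ≤ atTop := Ultrafilter.of_le _
  obtain ⟨Ψ, hΨ⟩ := lm_lim 𝒰 T (fun F x ξ η => lm_bound (hT F) x ξ η)
  have hent : ∀ x ∈ 𝓜, ∀ (F : Finset J) (z y : W), act z ⊆ F → act y ⊆ F →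
      cf (Ψ x) z y = cf (T F x) z y := by
    intro x hx F z y hz hy
    have h1 := hΨ x (δ y) (δ z)
    rw [inner_δ] at h1
    refine tendsto_nhds_unique h1 ?_
    refine Tendsto.congr' ?_ tendsto_const_nhds
    refine Filter.Eventually.filter_mono h𝒰 ?_
    filter_upwards [eventually_ge_atTop F] with F' hF'
    rw [inner_δ]
    exact (hc x hx F F' hF' z y hz hy).symm
  have hM : ∀ x ∈ 𝓜, Ψ x ∈ 𝓜 := fun x hx => hmem x hx (Ψ x) (hent x hx)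
  let Φ : 𝓜 →ₗ[ℂ] 𝓜 :=
    { toFun := fun x => ⟨Ψ x, hM x x.2⟩
      map_add' := by
        intro x y
        apply Subtype.ext
        change Ψ ((x : L2 W →L[ℂ] L2 W) + (y : L2 W →L[ℂ] L2 W)) = _
        rw [map_add]
        rfl
      map_smul' := by
        intro c x
        apply Subtype.ext
        change Ψ (c • (x : L2 W →L[ℂ] L2 W)) = _
        rw [map_smul]
        rfl }
  have hΦ : ∀ x : 𝓜, (Φ x : L2 W →L[ℂ] L2 W) = Ψ (x : L2 W →L[ℂ] L2 W) := fun x => rfl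
  refine ⟨Φ, ?_, ?_, ?_⟩
  · rintro φ ⟨κ, ξ, η, hξ, hη, hφ⟩
    have h1 := rp_union (𝓜 := 𝓜)
      (φ := fun k (x : 𝓜) => ⟪η k, (Φ x : L2 W →L[ℂ] L2 W) (ξ k)⟫_ℂ)
      (fun k => rp_vec T hT act (fun x : 𝓜 => (Φ x : L2 W →L[ℂ] L2 W))
        (fun x F z y hz hy => by rw [hΦ]; exact hent x x.2 F z y hz hy) (ξ k) (η k))
      (hξ.mul_left 7) (hη.mul_left 7)
    obtain ⟨ι, ξ', η', a1, -, a2, -, a3⟩ := h1
    refine ⟨ι, ξ', η', a1, a2, fun x => ?_⟩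
    exact (hφ (Φ x)).trans (a3 x)
  · intro n X hX ξ
    have h1 : Tendsto (fun F => ∑ i, ∑ j, ⟪ξ i, T F (X i j : L2 W →L[ℂ] L2 W) (ξ j)⟫_ℂ) 𝒰
        (𝓝 (∑ i, ∑ j, ⟪ξ i, (Φ (X i j) : L2 W →L[ℂ] L2 W) (ξ j)⟫_ℂ)) :=
      tendsto_finsetSum _ fun i _ => tendsto_finsetSum _ fun j _ => hΨ _ _ _
    exact ge_of_tendsto h1 (Eventually.of_forall fun F => lm_pos (hT F) n
      (fun i j => (X i j : L2 W →L[ℂ] L2 W)) hX ξ)
  · intro x F z y hz hy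
    rw [hΦ]
    exact hent x x.2 F z y hz hy

end Pool.Agent.H73.HU
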