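import Pool.Agent.H73.HU.Aut
import Pool.Agent.H73.HU.Defs
import Pool.Agent.H73.HVN.Geom
import Pool.Agent.H73.HVN.Parab

/-!
# Project HU, module Prp: conjugates of generators, minimal representatives

PLAN. `conj_simple`: induction on `ℓ(u)`. `u s_b' = s_b u`. If `u = 1`: `simple_injective`. Otherwise let `s ∈ L` be a left
descent of `u` (`left_descent_mem`), `v = s u ∈ W_L`, `ℓ v < ℓ u`. As `b, b' ∉ L`: `ℓ (s_b u) = ℓ u + 1 = ℓ (u s_b')` (`b` is not a
left descent of `u`, `left_descent_mem`). So `x = s_b u = u s_b'` has the left descents `b` and `s ≠ b`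
(`ℓ (s u s_b') ≤ ℓ v + 1`), by `two_left_descents` `b` is a left descent of `s x = v s_b'`; `b` is not a left descent of `v` and
`b'` is not a right descent of `v`, so `simple_mul_eq_mul_simple` (`Pool/Agent/H73/HVN/Exch.lean`) gives `s_b v = v s_b'`.
By induction `b' = b`, `v ∈ W_K`; and `s s_b u = s u s_b' = v s_b' = s_b v = s_b s u`, so `s s_b = s_b s`, `s ∈ K`, `u = s v ∈ W_K`.

`exists_min_rep`: take `g ∈ W_(A ∩ L)` of minimal length such that `a = g s_b g⁻¹` for some `b ∈ A`, `b ∉ L`; let
`K = {s ∈ L : s s_b = s_b s}`. `g` has no right descent in `K` (a right descent of `g` is in `A ∩ L` by `right_descent_mem`, and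
`g s` would be shorter). If `a = g' s_b' g'⁻¹` with `g' ∈ W_L`, `b' ∉ L`, then `u = g⁻¹ g'` satisfies `u s_b' u⁻¹ = s_b`, so
`u ∈ W_K` and `ℓ (g u) = ℓ g + ℓ u` (`length_mul_of_min`); `t ∈ N(g)` gives `ℓ (t g') ≤ ℓ (t g) + ℓ u < ℓ g'`, so
`t ∈ N(g')`, i.e. `side cs t g'⁻¹ = true`. Hence `a ∉ Zs cs L t false`.

`exists_decomp_A`: `w = w' s_i` (induction over words in `A`, e.g. `Subgroup.closure_induction_right` or the word induction as in
`exists_word_mem` of `Pool/Agent/H26/SD/Desc.lean`), `w' = h * pi1 z`. If `i ∈ L`: `w = (h s_i) * pi1 (act1 s_i z)`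
(`pi1_act1`), and `act1 s_i z ∈ WP (cj s_i '' RA) ⊆ WP RA` (`WP_aut` or directly by closure induction; `act1_simple`).
If `i ∉ L`: `w = h * pi1 (z * simple a)` with `a = s_i ∈ RA`.
-/

set_option autoImplicit false

open scoped ComplexOrder InnerProductSpace
open Filter Topology

namespace Pool.Agent.H73.HU

open Pool.Agent.H73.HVN Pool.Agent.H26.SD

universe u v w

variable {B : Type v} {W : Type u} [Group W] {M : CoxeterMatrix B} (cs : CoxeterSystem M W)

theorem conj_simple {L : Set B} {u : W} (hu : u ∈ WP cs L) {b b' : B} (hb : b ∉ L) (hb' : b' ∉ L)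
    (h : u * cs.simple b' * u⁻¹ = cs.simple b) :
    b' = b ∧ u ∈ WP cs {s | s ∈ L ∧ cs.simple s * cs.simple b = cs.simple b * cs.simple s} := by
  induction hn : cs.length u using Nat.strong_induction_on generalizing u with
  | _ n ih =>
    have e : u * cs.simple b' = cs.simple b * u := by
      rw [← h]
      group
    by_cases hu1 : u = 1
    · subst hu1
      rw [one_mul, mul_one] at e
      exact ⟨simple_injective cs e, one_mem _⟩
    obtain ⟨s, hs⟩ := cs.exists_leftDescent_of_ne_one hu1
    have hsL : s ∈ L := left_descent_mem cs hu hs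
    have hsb : s ≠ b := by
      rintro rfl
      exact hb hsL
    have hv : cs.simple s * u ∈ WP cs L := mul_mem (Subgroup.subset_closure ⟨s, hsL, rfl⟩) hu
    have hlv : cs.length (cs.simple s * u) + 1 = cs.length u := cs.isLeftDescent_iff.1 hs
    have hbu : ¬ cs.IsLeftDescent u b := fun hd => hb (left_descent_mem cs hu hd)
    have hbu' : cs.length (cs.simple b * u) = cs.length u + 1 := cs.not_isLeftDescent_iff.1 hbu
    have hxb : cs.IsLeftDescent (cs.simple b * u) b := by
      unfold CoxeterSystem.IsLeftDescent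
      rw [cs.simple_mul_simple_cancel_left, hbu']
      exact Nat.lt_succ_self _
    have hxs : cs.IsLeftDescent (cs.simple b * u) s := by
      unfold CoxeterSystem.IsLeftDescent
      rw [hbu', ← e, ← mul_assoc]
      have h1 := cs.length_mul_le (cs.simple s * u) (cs.simple b')
      rw [cs.length_simple] at h1
      omega
    have h2 := (two_left_descents cs hsb hxs hxb).2
    have h3 : cs.simple b * (cs.simple s * u) = cs.simple s * u * cs.simple b' := by
      apply simple_mul_eq_mul_simple cs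
      · exact fun hd => hb (left_descent_mem cs hv hd)
      · exact fun hd => hb' (right_descent_mem cs hv hd)
      · unfold CoxeterSystem.IsLeftDescent at h2
        have h4 : cs.simple s * (cs.simple b * u) = cs.simple s * u * cs.simple b' := by
          rw [← e, mul_assoc]
        rw [h4] at h2
        have h5 := cs.length_mul_le (cs.simple s * u) (cs.simple b')
        rw [cs.length_simple] at h5
        have h6 : cs.simple b * (cs.simple s * u) * cs.simple b' =
            cs.simple b * (cs.simple s * u * cs.simple b') := by group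
        rw [h6]
        omega
    have h7 : cs.simple s * u * cs.simple b' * (cs.simple s * u)⁻¹ = cs.simple b := by
      rw [← h3]
      group
    obtain ⟨h8, h9⟩ := ih (cs.length (cs.simple s * u)) (by omega) hv h7 rfl
    refine ⟨h8, ?_⟩
    have h10 : cs.simple s * cs.simple b = cs.simple b * cs.simple s := by
      have h11 : cs.simple s * cs.simple b * u = cs.simple b * cs.simple s * u := by
        rw [mul_assoc, ← e, ← mul_assoc, ← h3, mul_assoc]
      exact mul_right_cancel h11
    have h12 : u = cs.simple s * (cs.simple s * u) := by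
      rw [cs.simple_mul_simple_cancel_left]
    rw [h12]
    exact mul_mem (Subgroup.subset_closure ⟨s, ⟨hsL, h10⟩, rfl⟩) h9

theorem exists_min_rep {L A : Set B} {a : Rf cs L} (ha : a ∈ RA cs L A) :
    ∃ g ∈ WP cs (A ∩ L), ∃ b ∈ A, b ∉ L ∧ (a : W) = g * cs.simple b * g⁻¹ ∧
      ∀ t, cs.IsLeftInversion g t → a ∉ Zs cs L t false := by
  classical
  have hex : ∃ n, ∃ g ∈ WP cs (A ∩ L), ∃ b ∈ A, b ∉ L ∧ (a : W) = g * cs.simple b * g⁻¹ ∧
      cs.length g = n := by
    obtain ⟨g, hg, b, hb, hbL, hab⟩ := ha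
    exact ⟨_, g, hg, b, hb, hbL, hab, rfl⟩
  obtain ⟨g, hg, b, hb, hbL, hab, hgn⟩ := Nat.find_spec hex
  refine ⟨g, hg, b, hb, hbL, hab, ?_⟩
  have hgL : g ∈ WP cs L := Subgroup.closure_mono (Set.image_mono Set.inter_subset_right) hg
  have hmin : ∀ i ∈ {s | s ∈ L ∧ cs.simple s * cs.simple b = cs.simple b * cs.simple s},
      ¬ cs.IsRightDescent g i := by
    rintro i ⟨hiL, hib⟩ hd
    have hiA : i ∈ A ∩ L := right_descent_mem cs hg hd
    have h1 : cs.length (g * cs.simple i) < Nat.find hex := by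
      rw [← hgn]
      exact hd
    refine Nat.find_min hex h1 ⟨g * cs.simple i,
      mul_mem hg (Subgroup.subset_closure ⟨i, hiA, rfl⟩), b, hb, hbL, ?_, rfl⟩
    have h2 : g * cs.simple i * cs.simple b * (g * cs.simple i)⁻¹ =
        g * (cs.simple i * cs.simple b) * cs.simple i * g⁻¹ := by
      rw [mul_inv_rev, cs.inv_simple]
      group
    rw [h2, hib, hab]
    have h3 : g * (cs.simple b * cs.simple i) * cs.simple i * g⁻¹ =
        g * cs.simple b * (cs.simple i * cs.simple i) * g⁻¹ := by group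
    rw [h3, cs.simple_mul_simple_self, mul_one]
  rintro t ht ⟨g', hg', b', hb', hab', hside⟩
  have hu : g⁻¹ * g' ∈ WP cs L := mul_mem (inv_mem hgL) hg'
  have h1 : g⁻¹ * g' * cs.simple b' * (g⁻¹ * g')⁻¹ = cs.simple b := by
    have h2 : g⁻¹ * g' * cs.simple b' * (g⁻¹ * g')⁻¹ = g⁻¹ * (g' * cs.simple b' * g'⁻¹) * g := by
      group
    rw [h2, ← hab', hab]
    group
  obtain ⟨-, hK⟩ := conj_simple cs hu hbL hb' h1
  have h3 := length_mul_of_min cs hmin hK
  rw [mul_inv_cancel_left] at h3
  have h4 : cs.IsLeftInversion g' t := by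
    refine ⟨ht.1, ?_⟩
    have h5 : t * g' = t * g * (g⁻¹ * g') := by group
    have h6 := cs.length_mul_le (t * g) (g⁻¹ * g')
    have h7 := ht.2
    rw [h5]
    omega
  unfold side at hside
  rw [inv_inv] at hside
  simp [h4] at hside

private theorem prp_word {L A : Set B} (ω : List B) (hω : ∀ i ∈ ω, i ∈ A) :
    ∃ h ∈ WP cs (A ∩ L), ∃ z ∈ WP (cs1 cs L) (RA cs L A), cs.wordProd ω = h * pi1 cs L z := by
  induction ω with
  | nil => exact ⟨1, one_mem _, 1, one_mem _, by simp⟩
  | cons i ω ih =>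
    obtain ⟨h, hh, z, hz, e⟩ := ih (fun j hj => hω j (List.mem_cons_of_mem _ hj))
    have hiA : i ∈ A := hω i List.mem_cons_self
    rw [cs.wordProd_cons, e]
    have hhL : h ∈ WP cs L := Subgroup.closure_mono (Set.image_mono Set.inter_subset_right) hh
    by_cases hi : i ∈ L
    · exact ⟨cs.simple i * h, mul_mem (Subgroup.subset_closure ⟨i, ⟨hiA, hi⟩, rfl⟩) hh, z, hz,
        by group⟩
    · have h1 := Rf_conj cs L (inv_mem hhL) (simple_mem_Rf cs L hi)
      refine ⟨h, hh, (cs1 cs L).simple ⟨_, h1⟩ * z, mul_mem (Subgroup.subset_closure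
        ⟨_, ⟨h⁻¹, inv_mem hh, i, hiA, hi, rfl⟩, rfl⟩) hz, ?_⟩
      rw [map_mul, pi1_simple]
      group

theorem exists_decomp_A {L A : Set B} {w : W} (hw : w ∈ WP cs A) :
    ∃ h ∈ WP cs (A ∩ L), ∃ z ∈ WP (cs1 cs L) (RA cs L A), w = h * pi1 cs L z := by
  obtain ⟨ω, -, rfl, hω⟩ := exists_reduced_word_mem cs hw
  exact prp_word cs ω hω

end Pool.Agent.H73.HU
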