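import Pool.Agent.H73.HU.Act
import Pool.Agent.H73.HU.Prp
import Pool.Agent.H73.HVN.Growth

/-!
# Project HU, module Lvl: the multiplier of the limit map

`cU cs L r w = ∏ᶠ j, mJ cs L r j h 1 z` for `w = h * pi1 z`. By `exists_act` (with `k = 1`, `y = 1`) all factors with `j` outside a
finite set (not depending on `r`) are `1`; all factors are in `(0, 1]`.

PLAN. `cU_eq`: `exists_act` (module `Act`) with `k = 1 = y`, `finprod_eq_prod_of_mulSupport_subset`.
`cU_bd`, `cU_one` (all factors are `1`: `side cs t 1 = false`, `z = 1`, `NN_one`), `cU_tendsto` (finite product of continuous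
functions of `r`, each tending to `1`).
`finite_cU`: let `r ^ n < ε`. Let `w ∈ W_A` with `cU w ≥ ε`, `w = h * pi1 z` as in `exists_decomp_A`. For a finite set `F` of
`j`: `cU w ≤ ∏ j ∈ F, mJ j`.
(1) `ℓ h < n`: for the `ℓ h` left inversions `t` of `h⁻¹` (`leftInvSeq` of a reduced word: `nodup_leftInvSeq`,
`length_leftInvSeq`) `side cs t h = true ≠ false = side cs t 1`, so `mT = r`, `cU w ≤ r ^ (ℓ h)`. So `h` is in a finite set
(words of length `< n` in the letters of the finite set `A`; or words `List A` as in `finite_level` of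
`Pool/Agent/H73/HVN/Growth.lean`).
(2) Let `ω` be a reduced word of `z` (letters in `RA cs L A`: `exists_reduced_word_mem`). For a letter `a` of `ω` take `g` from
`exists_min_rep`. For `t ∈ N(g)`: `a ∉ Zs cs L t false`, so `z ∉ WP (cs1 cs L) (Zs cs L t false)` (`mem_of_isReduced`), and
`side cs t 1 = false`, so `mT = r`. Hence `ℓ g < n`, so `a` is in the finite set `F_n` of the `g b g⁻¹`, `g ∈ W_(A ∩ L)`, `ℓ g < n`,
`b ∈ A`.
(3) `∏ a ∈ F_n, mA = r ^ (∑ a ∈ F_n, NN a z)`, so `∑ ≤ n`, and `z ∈ WP F_n`: `finite_level (cs1 cs L)` with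
`isFC_cs1 cs hE hFC`.
-/

set_option autoImplicit false

open scoped ComplexOrder InnerProductSpace
open Filter Topology

namespace Pool.Agent.H73.HU

open Pool.Agent.H73.HVN Pool.Agent.H26.SD

universe u v w

variable {B : Type v} {W : Type u} [Group W] {M : CoxeterMatrix B} (cs : CoxeterSystem M W)

theorem cU_eq {L : Set B} (hE : ∀ i, i ∉ L → ∀ j ∈ L, Even (M i j)) (w : W) :
    ∃ F : Finset (W ⊕ Rf cs L), ∀ r, (∀ j, j ∉ F → mJ cs L r j (dec cs L w).1 1 (dec cs L w).2 = 1) ∧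
      cU cs L r w = ∏ j ∈ F, mJ cs L r j (dec cs L w).1 1 (dec cs L w).2 := by
  classical
  obtain ⟨act, hact⟩ := exists_act cs hE
  obtain ⟨A, hz, -, hA⟩ := hact (dec cs L w).1 (dec cs L w).1.2 1 (one_mem _) (dec cs L w).2 1
  refine ⟨act ((dec cs L w).1 * pi1 cs L (dec cs L w).2) ∪ act (1 * pi1 cs L 1), fun r => ?_⟩
  have h1 : ∀ j, j ∉ act ((dec cs L w).1 * pi1 cs L (dec cs L w).2) ∪ act (1 * pi1 cs L 1) →
      mJ cs L r j (dec cs L w).1 1 (dec cs L w).2 = 1 := by
    intro j hj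
    rw [Finset.mem_union, not_or] at hj
    exact hA r j hj.1 hj.2 _ hz
  refine ⟨h1, ?_⟩
  unfold cU
  refine finprod_eq_prod_of_mulSupport_subset _ ?_
  intro j hj
  by_contra hn
  exact hj (h1 j (by simpa using hn))

theorem mJ_pos (L : Set B) {r : ℝ} (h0 : 0 < r) (j : W ⊕ Rf cs L) (h k : W) (z : W1 cs L) :
    0 < mJ cs L r j h k z := by
  rcases j with t | a
  · change 0 < mT cs L r t h k z
    unfold mT
    split_ifs
    · exact one_pos
    · exact h0
  · exact pow_pos h0 _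

theorem mJ_le (L : Set B) {r : ℝ} (h0 : 0 < r) (h1 : r < 1) (j : W ⊕ Rf cs L) (h k : W) (z : W1 cs L) :
    mJ cs L r j h k z ≤ 1 := by
  rcases j with t | a
  · change mT cs L r t h k z ≤ 1
    unfold mT
    split_ifs
    · exact le_rfl
    · exact h1.le
  · exact pow_le_one₀ h0.le h1.le

theorem cU_bd {L : Set B} (hE : ∀ i, i ∉ L → ∀ j ∈ L, Even (M i j)) {r : ℝ} (h0 : 0 < r) (h1 : r < 1) (w : W) :
    0 < cU cs L r w ∧ cU cs L r w ≤ 1 := by
  obtain ⟨F, hF⟩ := cU_eq cs hE w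
  rw [(hF r).2]
  exact ⟨Finset.prod_pos fun j _ => mJ_pos cs L h0 j _ _ _,
    Finset.prod_le_one (fun j _ => (mJ_pos cs L h0 j _ _ _).le) fun j _ => mJ_le cs L h0 h1 j _ _ _⟩

theorem cU_one {L : Set B} (hE : ∀ i, i ∉ L → ∀ j ∈ L, Even (M i j)) (r : ℝ) : cU cs L r 1 = 1 := by
  have hd : dec cs L 1 = (1, 1) := by
    have h := dec_eq cs hE 1 1
    simpa using h
  unfold cU
  rw [hd]
  refine finprod_eq_one_of_forall_eq_one fun j => ?_
  rcases j with t | a
  · change mT cs L r t _ _ _ = 1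
    unfold mT
    exact if_pos ⟨rfl, one_mem _⟩
  · change r ^ NN (cs1 cs L) a 1 = 1
    rw [NN_one, pow_zero]

theorem cU_tendsto {L : Set B} (hE : ∀ i, i ∉ L → ∀ j ∈ L, Even (M i j)) {ι : Type w} {f : Filter ι}
    {r : ι → ℝ} (hr : Tendsto r f (𝓝 1)) (w : W) : Tendsto (fun i => cU cs L (r i) w) f (𝓝 1) := by
  obtain ⟨F, hF⟩ := cU_eq cs hE w
  have h1 : (fun i => cU cs L (r i) w) =
      fun i => ∏ j ∈ F, mJ cs L (r i) j (dec cs L w).1 1 (dec cs L w).2 :=
    funext fun i => (hF (r i)).2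
  have h2 : Tendsto (fun i => ∏ j ∈ F, mJ cs L (r i) j (dec cs L w).1 1 (dec cs L w).2) f
      (𝓝 (∏ j ∈ F, (1 : ℝ))) := by
    refine tendsto_finsetProd _ fun j _ => ?_
    rcases j with t | a
    · change Tendsto (fun i => mT cs L (r i) t _ _ _) f (𝓝 1)
      unfold mT
      split_ifs
      · exact tendsto_const_nhds
      · exact hr
    · change Tendsto (fun i => r i ^ NN (cs1 cs L) a _) f (𝓝 1)
      have h3 := hr.pow (NN (cs1 cs L) a (dec cs L w).2)
      rwa [one_pow] at h3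
  rw [h1]
  simpa using h2

/-- the multiplier is bounded by every finite partial product -/
private theorem cU_le_prod {L : Set B} (hE : ∀ i, i ∉ L → ∀ j ∈ L, Even (M i j)) {r : ℝ} (h0 : 0 < r)
    (h1 : r < 1) (w : W) (F' : Finset (W ⊕ Rf cs L)) :
    cU cs L r w ≤ ∏ j ∈ F', mJ cs L r j (dec cs L w).1 1 (dec cs L w).2 := by
  classical
  obtain ⟨F, hF⟩ := cU_eq cs hE w
  obtain ⟨h2, h3⟩ := hF r
  rw [h3, Finset.prod_subset (Finset.subset_union_left (s₁ := F) (s₂ := F')) fun j _ hj => h2 j hj,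
    ← Finset.prod_sdiff (Finset.subset_union_right (s₁ := F) (s₂ := F'))]
  refine mul_le_of_le_one_left (Finset.prod_nonneg fun j _ => (mJ_pos cs L h0 j _ _ _).le) ?_
  exact Finset.prod_le_one (fun j _ => (mJ_pos cs L h0 j _ _ _).le) fun j _ => mJ_le cs L h0 h1 j _ _ _

private theorem lt_of_pow {r ε x : ℝ} (h0 : 0 < r) (h1 : r < 1) {n m : ℕ} (hn : r ^ n < ε) (hx : ε ≤ x)
    (hm : x ≤ r ^ m) : m < n := by
  by_contra hc
  push Not at hc
  have h2 := pow_le_pow_of_le_one h0.le h1.le hc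
  linarith

/-- if `g` is such that the factors of its inversions are `r` then `g` is short -/
private theorem length_lt {L : Set B} (hE : ∀ i, i ∉ L → ∀ j ∈ L, Even (M i j)) {r ε : ℝ} (h0 : 0 < r)
    (h1 : r < 1) {n : ℕ} (hn : r ^ n < ε) {w : W} (hw : ε ≤ cU cs L r w) {g : W}
    (hg : ∀ t, cs.IsLeftInversion g t → mT cs L r t (dec cs L w).1 1 (dec cs L w).2 ≤ r) :
    cs.length g < n := by
  classical
  obtain ⟨ω, hω, rfl⟩ := cs.exists_isReduced g
  have h2 := cU_le_prod cs hE h0 h1 w ((cs.leftInvSeq ω).toFinset.map Function.Embedding.inl)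
  rw [Finset.prod_map] at h2
  have h3 : ∏ t ∈ (cs.leftInvSeq ω).toFinset,
      mJ cs L r (Function.Embedding.inl t) (dec cs L w).1 1 (dec cs L w).2 ≤
      ∏ _t ∈ (cs.leftInvSeq ω).toFinset, r := by
    refine Finset.prod_le_prod (fun t _ => (mJ_pos cs L h0 _ _ _ _).le) fun t ht => ?_
    exact hg t ((Pool.Agent.H26.HR.mem_leftInvSeq_iff cs hω).1 (List.mem_toFinset.1 ht))
  rw [Finset.prod_const, List.toFinset_card_of_nodup hω.nodup_leftInvSeq, cs.length_leftInvSeq] at h3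
  have h4 : cs.length (cs.wordProd ω) = ω.length := hω
  rw [h4]
  exact lt_of_pow h0 h1 hn hw (h2.trans h3)

private theorem side_one (t : W) : side cs t 1 = false := by
  unfold side
  rw [decide_eq_false_iff_not]
  intro h
  have h1 := h.2
  simp at h1

private theorem wordProd_mem {L : Set B} {ω : List B} (h : ∀ i ∈ ω, i ∈ L) : cs.wordProd ω ∈ WP cs L := by
  induction ω with
  | nil => simp
  | cons i ω ih =>
    rw [cs.wordProd_cons]
    refine (WP cs L).mul_mem ?_ (ih fun j hj => h j (List.mem_cons_of_mem _ hj))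
    exact Subgroup.subset_closure ⟨i, h i List.mem_cons_self, rfl⟩

/-- finitely many elements of bounded length -/
private theorem finite_short {A : Set B} (hA : A.Finite) (n : ℕ) :
    {g | g ∈ WP cs A ∧ cs.length g < n}.Finite := by
  have := hA.to_subtype
  have hfin : ((fun ω : List A => cs.wordProd (ω.map Subtype.val)) ''
      {ω : List A | ω.length ≤ n}).Finite := (List.finite_length_le A _).image _
  refine hfin.subset ?_
  rintro g ⟨hg, hn⟩
  obtain ⟨ω, hred, rfl, hω⟩ := exists_reduced_word_mem cs hg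
  have h1 : cs.length (cs.wordProd ω) = ω.length := hred
  rw [h1] at hn
  lift ω to List A using hω
  exact ⟨ω, by simpa using hn.le, rfl⟩

theorem finite_cU {L : Set B} (hE : ∀ i, i ∉ L → ∀ j ∈ L, Even (M i j)) (hFC : RfFC cs L) {A : Set B}
    (hA : A.Finite) {r ε : ℝ} (h0 : 0 < r) (h1 : r < 1) (hε : 0 < ε) :
    {w | w ∈ WP cs A ∧ ε ≤ cU cs L r w}.Finite := by
  classical
  obtain ⟨n, hn⟩ := exists_pow_lt_of_lt_one hε h1
  have hAL : (A ∩ L).Finite := hA.subset Set.inter_subset_left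
  have hG := finite_short cs hAL n
  have hR : {a : Rf cs L | ∃ g ∈ {g | g ∈ WP cs (A ∩ L) ∧ cs.length g < n}, ∃ b ∈ A,
      (a : W) = g * cs.simple b * g⁻¹}.Finite := by
    refine Set.Finite.subset ((hG.image2 (fun g b => g * cs.simple b * g⁻¹) hA).preimage
      (f := fun a : Rf cs L => (a : W)) Subtype.val_injective.injOn) ?_
    rintro a ⟨g, hg, b, hb, h⟩
    exact ⟨g, hg, b, hb, h.symm⟩
  obtain ⟨R, hRR⟩ := hR.exists_finset_coe
  have hZ := finite_level (cs1 cs L) (isFC_cs1 cs hE hFC) R n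
  refine (hG.image2 (fun g z => g * pi1 cs L z) hZ).subset ?_
  rintro w ⟨hw, hwε⟩
  obtain ⟨h, hh, z, hz, hd⟩ := exists_decomp_A cs (L := L) hw
  have hhL : h ∈ WP cs L := WP_mono cs Set.inter_subset_right hh
  have hdec : dec cs L w = (⟨h, hhL⟩, z) := by
    rw [hd]
    exact dec_eq cs hE ⟨h, hhL⟩ z
  have hlen : cs.length h < n := by
    rw [← cs.length_inv]
    refine length_lt cs hE h0 h1 hn hwε fun t ht => ?_
    unfold mT
    rw [if_neg]
    rintro ⟨h2, -⟩
    rw [hdec, side_one] at h2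
    unfold side at h2
    rw [decide_eq_false_iff_not] at h2
    exact h2 ht
  have hzR : z ∈ WP (cs1 cs L) (R : Set (Rf cs L)) := by
    obtain ⟨ω, hω, rfl, hωR⟩ := exists_reduced_word_mem (cs1 cs L) hz
    refine wordProd_mem (cs1 cs L) fun a ha => ?_
    obtain ⟨g, hg, b, hb, hbL, hab, hgt⟩ := exists_min_rep cs (hωR a ha)
    rw [hRR]
    refine ⟨g, ⟨hg, ?_⟩, b, hb, hab⟩
    refine length_lt cs hE h0 h1 hn hwε fun t ht => ?_
    unfold mT
    rw [if_neg]
    rintro ⟨-, h3⟩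
    rw [hdec, side_one] at h3
    exact hgt t ht (mem_of_isReduced (cs1 cs L) hω h3 a ha)
  have hsum : ∑ a ∈ R, NN (cs1 cs L) a z < n := by
    have h2 := cU_le_prod cs hE h0 h1 w (R.map Function.Embedding.inr)
    rw [Finset.prod_map, hdec] at h2
    refine lt_of_pow h0 h1 hn hwε (h2.trans (le_of_eq ?_))
    rw [← Finset.prod_pow_eq_pow_sum]
    rfl
  exact ⟨h, ⟨hh, hlen⟩, z, ⟨hzR, hsum.le⟩, hd.symm⟩

end Pool.Agent.H73.HU
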