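import Pool.Agent.H73.HU.Tr
import Pool.Agent.H73.HVN.MapPhi

/-!
# Project HU, module MapA: the tree maps

PLAN. `exists_bker` (module `Tr`, its proof may still be missing) with the weights and translations `mapPhiK`, `mapPhiA` of
`Pool/Agent/H73/HVN/MapPhi.lean` (private there: copy the private definitions and lemmas up to `mapPhi_kmap` with the prefix
`MapA_`) for the Coxeter system `cs1 cs L`, `κ i h z := mapPhiK (cs1 cs L) a r i z` (not depending on `h`). Then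
`blk (cf (T x)) h k = Theta (cs1 cs L) a (fun k => r ^ k) (blk (cf x) h k)` (`mapPhi_kmap`), `Theta_CC` (with
`admissible_q1`) and `Theta_one`.
-/

set_option autoImplicit false

open scoped ComplexOrder InnerProductSpace
open Filter Topology

namespace Pool.Agent.H73.HU

open Pool.Agent.H73.HVN Pool.Agent.H26.SD

universe u v w

variable {B : Type v} {W : Type u} [Group W] {M : CoxeterMatrix B} (cs : CoxeterSystem M W)

open Classical in
private noncomputable def MapA_K (b : B) (r : ℝ) : PUnit.{u + 1} ⊕ (W ⊕ W) → W → ℝ :=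
  Sum.elim (fun _ w => r ^ NN cs b w)
    (Sum.elim
      (fun v w => if v ∈ VV cs b ∧ w ∈ YY cs b then √(1 - r) * r ^ NN cs b w else 0)
      (fun f w => if f ∈ FF cs b ∧ w ∉ YY cs b then √((1 - r) / r) * r ^ NN cs b w else 0))

private def MapA_A : PUnit.{u + 1} ⊕ (W ⊕ W) → W :=
  Sum.elim (fun _ => 1) (Sum.elim (fun v => v) (fun f => f))

private theorem MapA_sum (b : B) {r : ℝ} (h0 : 0 < r) (h1 : r < 1) (y : W) :
    HasSum (fun i => (MapA_K cs b r i (y * (MapA_A i)⁻¹)) ^ 2) 1 := by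
  classical
  have hk := kappa cs b h0.ne' y
  have s1 : HasSum (fun v : W => (1 - r) *
      (if v ∈ VV cs b ∧ y * v⁻¹ ∈ YY cs b then r ^ (2 * NN cs b (y * v⁻¹)) else 0))
      ((1 - r) * (∑' v : W, if v ∈ VV cs b ∧ y * v⁻¹ ∈ YY cs b
        then r ^ (2 * NN cs b (y * v⁻¹)) else 0)) := by
    refine HasSum.mul_left _ (Summable.hasSum ?_)
    refine summable_of_hasFiniteSupport ((finite_V cs b y).subset ?_)
    intro v hv
    by_contra hn
    exact hv (if_neg hn)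
  have s2 : HasSum (fun f : W => (1 - r) / r *
      (if f ∈ FF cs b ∧ y * f⁻¹ ∉ YY cs b then r ^ (2 * NN cs b (y * f⁻¹)) else 0))
      ((1 - r) / r * (∑' f : W, if f ∈ FF cs b ∧ y * f⁻¹ ∉ YY cs b
        then r ^ (2 * NN cs b (y * f⁻¹)) else 0)) := by
    refine HasSum.mul_left _ (Summable.hasSum ?_)
    refine summable_of_hasFiniteSupport ((finite_F cs b y).subset ?_)
    intro v hv
    by_contra hn
    exact hv (if_neg hn)
  have s0 : HasSum (fun _ : PUnit.{u + 1} => r ^ (2 * NN cs b y)) (r ^ (2 * NN cs b y)) :=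
    hasSum_unique _
  have s3 := HasSum.sum (f := fun i => (MapA_K cs b r i (y * (MapA_A i)⁻¹)) ^ 2)
    (a := r ^ (2 * NN cs b y))
    (b := (1 - r) * (∑' v : W, if v ∈ VV cs b ∧ y * v⁻¹ ∈ YY cs b
        then r ^ (2 * NN cs b (y * v⁻¹)) else 0) +
      (1 - r) / r * (∑' f : W, if f ∈ FF cs b ∧ y * f⁻¹ ∉ YY cs b
        then r ^ (2 * NN cs b (y * f⁻¹)) else 0)) ?_ (HasSum.sum ?_ ?_)
  · rw [← add_assoc, hk] at s3
    exact s3
  · convert s0 using 1
    funext _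
    simp only [MapA_K, MapA_A, Function.comp_apply, Sum.elim_inl, inv_one, mul_one]
    rw [← pow_mul, mul_comm]
  · convert s1 using 1
    funext v
    simp only [MapA_K, MapA_A, Function.comp_apply, Sum.elim_inl, Sum.elim_inr]
    split_ifs with h
    · rw [mul_pow, Real.sq_sqrt (by linarith), ← pow_mul, mul_comm 2]
    · simp
  · convert s2 using 1
    funext v
    simp only [MapA_K, MapA_A, Function.comp_apply, Sum.elim_inr]
    split_ifs with h
    · rw [mul_pow, Real.sq_sqrt (div_nonneg (by linarith) h0.le), ← pow_mul, mul_comm 2]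
    · simp

open Classical in
private theorem MapA_ker {𝒜 𝒴 : Set W} {ω X : W → W → ℂ} {z y : W}
    (h : {a | a ∈ 𝒜 ∧ y * a⁻¹ ∈ 𝒴}.Finite) :
    HasSum (fun a : W => if a ∈ 𝒜 ∧ z * a⁻¹ ∈ 𝒴 ∧ y * a⁻¹ ∈ 𝒴 then
      ω (z * a⁻¹) (y * a⁻¹) * X (z * a⁻¹) (y * a⁻¹) else 0) (Ker 𝒜 𝒴 ω X z y) := by
  unfold Ker
  refine (summable_of_hasFiniteSupport (h.subset ?_)).hasSum
  intro v hv
  by_contra hn
  exact hv (if_neg fun h => hn ⟨h.1, h.2.2⟩)

private theorem MapA_kmap (b : B) {r : ℝ} (h0 : 0 < r) (h1 : r < 1) (X : W → W → ℂ) (z y : W) :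
    kmap (MapA_K cs b r) (MapA_K cs b r) MapA_A X z y =
      Theta cs b (fun k => r ^ k) X z y := by
  classical
  have hfin1 := finite_V cs b y
  have hfin2 := finite_F cs b y
  have s0 : HasSum (fun _ : PUnit.{u + 1} => ((r ^ (NN cs b z + NN cs b y) : ℝ) : ℂ) * X z y)
      (((r ^ (NN cs b z + NN cs b y) : ℝ) : ℂ) * X z y) := hasSum_unique _
  have s1 := MapA_ker (𝒜 := VV cs b) (𝒴 := YY cs b)
    (ω := fun z y => ((r ^ (NN cs b z + NN cs b y) - r ^ (NN cs b z + NN cs b y + 1) : ℝ) : ℂ))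
    (X := X) (z := z) hfin1
  have s2 := MapA_ker (𝒜 := FF cs b) (𝒴 := (YY cs b)ᶜ)
    (ω := fun z y => ((r ^ (NN cs b z + NN cs b y - 1) - r ^ (NN cs b z + NN cs b y) : ℝ) : ℂ))
    (X := X) (z := z) hfin2
  have s3 := HasSum.sum (f := fun i => ((MapA_K cs b r i (z * (MapA_A i)⁻¹) *
      MapA_K cs b r i (y * (MapA_A i)⁻¹) : ℝ) : ℂ) * X (z * (MapA_A i)⁻¹) (y * (MapA_A i)⁻¹))
    (a := ((r ^ (NN cs b z + NN cs b y) : ℝ) : ℂ) * X z y)
    (b := Ker (VV cs b) (YY cs b)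
        (fun z y => ((r ^ (NN cs b z + NN cs b y) - r ^ (NN cs b z + NN cs b y + 1) : ℝ) : ℂ))
        X z y + Ker (FF cs b) (YY cs b)ᶜ
        (fun z y => ((r ^ (NN cs b z + NN cs b y - 1) - r ^ (NN cs b z + NN cs b y) : ℝ) : ℂ))
        X z y) ?_ (HasSum.sum ?_ ?_)
  · unfold kmap Theta
    rw [s3.tsum_eq, add_assoc]
  · convert s0 using 1
    funext _
    simp only [MapA_K, MapA_A, Function.comp_apply, Sum.elim_inl, inv_one, mul_one]
    rw [pow_add]
  · convert s1 using 1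
    funext v
    simp only [MapA_K, MapA_A, Function.comp_apply, Sum.elim_inl, Sum.elim_inr]
    by_cases hv : v ∈ VV cs b
    · by_cases hz : z * v⁻¹ ∈ YY cs b
      · by_cases hy : y * v⁻¹ ∈ YY cs b
        · rw [if_pos ⟨hv, hz⟩, if_pos ⟨hv, hy⟩, if_pos ⟨hv, hz, hy⟩]
          congr 2
          have h2 : √(1 - r) * √(1 - r) = 1 - r := Real.mul_self_sqrt (by linarith)
          rw [mul_mul_mul_comm, h2, ← pow_add, pow_succ]
          ring
        · rw [if_neg (fun h : v ∈ VV cs b ∧ y * v⁻¹ ∈ YY cs b => hy h.2),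
            if_neg (fun h : v ∈ VV cs b ∧ z * v⁻¹ ∈ YY cs b ∧ y * v⁻¹ ∈ YY cs b => hy h.2.2)]
          simp
      · rw [if_neg (fun h : v ∈ VV cs b ∧ z * v⁻¹ ∈ YY cs b => hz h.2),
            if_neg (fun h : v ∈ VV cs b ∧ z * v⁻¹ ∈ YY cs b ∧ y * v⁻¹ ∈ YY cs b => hz h.2.1)]
        simp
    · rw [if_neg (fun h : v ∈ VV cs b ∧ z * v⁻¹ ∈ YY cs b => hv h.1),
            if_neg (fun h : v ∈ VV cs b ∧ z * v⁻¹ ∈ YY cs b ∧ y * v⁻¹ ∈ YY cs b => hv h.1)]
      simp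
  · convert s2 using 1
    funext v
    simp only [MapA_K, MapA_A, Function.comp_apply, Sum.elim_inr]
    by_cases hv : v ∈ FF cs b
    · by_cases hz : z * v⁻¹ ∈ YY cs b
      · rw [if_neg (fun h : v ∈ FF cs b ∧ z * v⁻¹ ∉ YY cs b => h.2 hz),
            if_neg (fun h : v ∈ FF cs b ∧ z * v⁻¹ ∈ (YY cs b)ᶜ ∧ y * v⁻¹ ∈ (YY cs b)ᶜ =>
              h.2.1 hz)]
        simp
      · by_cases hy : y * v⁻¹ ∈ YY cs b
        · rw [if_neg (fun h : v ∈ FF cs b ∧ y * v⁻¹ ∉ YY cs b => h.2 hy),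
            if_neg (fun h : v ∈ FF cs b ∧ z * v⁻¹ ∈ (YY cs b)ᶜ ∧ y * v⁻¹ ∈ (YY cs b)ᶜ =>
              h.2.2 hy)]
          simp
        · rw [if_pos ⟨hv, hz⟩, if_pos ⟨hv, hy⟩, if_pos ⟨hv, hz, hy⟩]
          congr 2
          have h2 : √((1 - r) / r) * √((1 - r) / r) = (1 - r) / r :=
            Real.mul_self_sqrt (div_nonneg (by linarith) h0.le)
          have h3 := NN_pos cs hz
          obtain ⟨m, hm⟩ : ∃ m, NN cs b (z * v⁻¹) + NN cs b (y * v⁻¹) = m + 1 :=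
            ⟨NN cs b (z * v⁻¹) + NN cs b (y * v⁻¹) - 1, by omega⟩
          rw [mul_mul_mul_comm, h2, ← pow_add, hm, Nat.add_sub_cancel, pow_succ]
          field_simp
    · rw [if_neg (fun h : v ∈ FF cs b ∧ z * v⁻¹ ∉ YY cs b => hv h.1),
            if_neg (fun h : v ∈ FF cs b ∧ z * v⁻¹ ∈ (YY cs b)ᶜ ∧ y * v⁻¹ ∈ (YY cs b)ᶜ =>
              hv h.1)]
      simp

theorem exists_tree {L : Set B} {q : B → ℝ} (hq : Admissible cs q)
    (hE : ∀ i, i ∉ L → ∀ j ∈ L, Even (M i j)) (a : Rf cs L) {r : ℝ} (h0 : 0 < r) (h1 : r < 1) :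
    ∃ T, BMap cs L q T (mA cs L r a) := by
  obtain ⟨T, hT, hb⟩ := exists_bker cs hE (fun i _ z => MapA_K (cs1 cs L) a r i z) MapA_A
    (fun _ _ y => MapA_sum (cs1 cs L) a h0 h1 y)
  have hk : ∀ (x : L2 W →L[ℂ] L2 W), ∀ h ∈ WP cs L, ∀ k ∈ WP cs L,
      blk cs L (cf (T x)) h k =
        Theta (cs1 cs L) a (fun k => r ^ k) (blk cs L (cf x) h k) := by
    intro x h hh k hk
    funext z y
    rw [hb x h hh k hk z y]
    exact MapA_kmap (cs1 cs L) a h0 h1 (blk cs L (cf x) h k) z y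
  refine ⟨T, hT, fun x hx => ⟨?_, ?_⟩⟩
  · intro h hh k hk' t
    rw [hk x h hh k hk']
    exact Theta_CC (cs1 cs L) (admissible_q1 cs L hq) a _ (hx h hh k hk') t
  · intro h hh k hk' z
    rw [hk x h hh k hk']
    exact Theta_one (cs1 cs L) a _ _ z

end Pool.Agent.H73.HU
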