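import Pool.Agent.H73.HU.Tr
import Pool.Agent.H73.HVN.EA

/-!
# Project HU, module MapT: the wall maps

`exists_bker` with the index type `Option (Bool × W1)`, `α none = 1`, `α (s, m) = m`, weights
`κ none h z = √r`, `κ (s, m) h z = √(1 - r)` if `side cs t h = s`, `m` has no left descent in `Z_s` and
`z ∈ WP (cs1 cs L) (Zs cs L t s)`, and `0` otherwise. The sum of the squares is `r + (1 - r)`. The block of
`T x` is `r X + (1 - r) Ker 𝒜_s (WP Z_s) (fun _ _ => 1) X` with `X = blk (cf x) h k` if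
`side cs t h = side cs t k = s`, and `r X` otherwise. Commutation conditions: `Ker_CC` and linearity.
-/

set_option autoImplicit false

open scoped ComplexOrder InnerProductSpace
open Filter Topology

namespace Pool.Agent.H73.HU

open Pool.Agent.H73.HVN Pool.Agent.H26.SD

universe u v w

variable {B : Type v} {W : Type u} [Group W] {M : CoxeterMatrix B} (cs : CoxeterSystem M W)

private theorem MapT_unique (A : Set B) (y : W) :
    ∃ m₀ : W, ∀ m : W, ((∀ i ∈ A, ¬ cs.IsLeftDescent m i) ∧ y * m⁻¹ ∈ WP cs A) ↔ m = m₀ := by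
  obtain ⟨l, u, hu, hl, hy⟩ := exists_min_left cs A y
  refine ⟨u, fun m => ⟨?_, ?_⟩⟩
  · rintro ⟨hm, hym⟩
    have h : y * m⁻¹ * m = l * u := by rw [inv_mul_cancel_right, hy]
    exact (min_unique_left cs hm hu hym hl h).1
  · rintro rfl
    refine ⟨hu, ?_⟩
    rw [hy, mul_inv_cancel_right]
    exact hl

private theorem MapT_one (A : Set B) {m : W} (hm : ∀ i ∈ A, ¬ cs.IsLeftDescent m i)
    (h : m ∈ WP cs A) : m = 1 := by
  by_contra hne
  obtain ⟨i, hi⟩ := cs.exists_leftDescent_of_ne_one hne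
  exact hm i (left_descent_mem cs h hi) hi

private theorem MapT_Ker_CC {q : B → ℝ} (hq : Admissible cs q) (A : Set B) {X : W → W → ℂ}
    (hX : ∀ i, CC cs q X i) (t : B) :
    CC cs q (Ker {m : W | ∀ i ∈ A, ¬ cs.IsLeftDescent m i} (WP cs A : Set W) (fun _ _ => 1) X) t := by
  refine Ker_CC cs hq (L := A) (fun i _ => hX i) ?_ ?_ ?_ ?_ ?_
  · intro y
    obtain ⟨m₀, h⟩ := MapT_unique cs A y
    refine (Set.finite_singleton m₀).subset ?_
    rintro a ⟨ha1, ha2⟩
    exact (h a).1 ⟨ha1, ha2⟩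
  · intro i hi y
    exact (WP cs A).mul_mem_cancel_right ((simple_mem_WP_iff cs).2 hi)
  · intro i _ z y
    exact ⟨rfl, rfl⟩
  · intro a ha
    exact deodhar_left cs ha t
  · intro y hy a ha
    exact length_mul_of_min_left cs ha hy

open Classical in
private theorem MapT_Ker_eq (A : Set B) (X : W → W → ℂ) (z y m₀ : W)
    (h : ∀ m : W, ((∀ i ∈ A, ¬ cs.IsLeftDescent m i) ∧ y * m⁻¹ ∈ WP cs A) ↔ m = m₀) :
    Ker {m : W | ∀ i ∈ A, ¬ cs.IsLeftDescent m i} (WP cs A : Set W) (fun _ _ => 1) X z y =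
      if z * m₀⁻¹ ∈ WP cs A then X (z * m₀⁻¹) (y * m₀⁻¹) else 0 := by
  unfold Ker
  rw [tsum_eq_single m₀]
  · have h0 := (h m₀).2 rfl
    by_cases hz : z * m₀⁻¹ ∈ WP cs A
    · rw [if_pos hz, if_pos ⟨h0.1, hz, h0.2⟩, one_mul]
    · rw [if_neg hz, if_neg (fun h3 => hz h3.2.1)]
  · intro a ha
    rw [if_neg]
    rintro ⟨h1, -, h3⟩
    exact ha ((h a).1 ⟨h1, h3⟩)

open Classical in
/-- the weights -/
private noncomputable def MapT_κ (L : Set B) (t : W) (r : ℝ) :
    Option (Bool × W1 cs L) → W → W1 cs L → ℝ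
  | none, _, _ => √r
  | some p, h, z => if side cs t h = p.1 ∧ (∀ i ∈ Zs cs L t p.1, ¬ (cs1 cs L).IsLeftDescent p.2 i) ∧
      z ∈ WP (cs1 cs L) (Zs cs L t p.1) then √(1 - r) else 0

/-- the shifts -/
private noncomputable def MapT_α (L : Set B) : Option (Bool × W1 cs L) → W1 cs L
  | none => 1
  | some p => p.2

private theorem MapT_zero (L : Set B) (t : W) (r : ℝ) (h : W) (y m₀ : W1 cs L)
    (hm : ∀ m, ((∀ i ∈ Zs cs L t (side cs t h), ¬ (cs1 cs L).IsLeftDescent m i) ∧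
      y * m⁻¹ ∈ WP (cs1 cs L) (Zs cs L t (side cs t h))) ↔ m = m₀)
    (i : Option (Bool × W1 cs L)) (h1 : i ≠ none) (h2 : i ≠ some (side cs t h, m₀)) :
    MapT_κ cs L t r i h (y * (MapT_α cs L i)⁻¹) = 0 := by
  rcases i with _ | ⟨s, m⟩
  · exact absurd rfl h1
  · unfold MapT_κ MapT_α
    dsimp only
    rw [if_neg]
    rintro ⟨rfl, h3, h4⟩
    exact h2 (by rw [(hm m).1 ⟨h3, h4⟩])

private theorem MapT_sq (L : Set B) (t : W) {r : ℝ} (h0 : 0 < r) (h1 : r < 1) (h : W)
    (y : W1 cs L) :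
    HasSum (fun i => (MapT_κ cs L t r i h (y * (MapT_α cs L i)⁻¹)) ^ 2) 1 := by
  classical
  obtain ⟨m₀, hm⟩ := MapT_unique (cs1 cs L) (Zs cs L t (side cs t h)) y
  have h2 : HasSum (fun i => (MapT_κ cs L t r i h (y * (MapT_α cs L i)⁻¹)) ^ 2)
      (∑ i ∈ ({none, some (side cs t h, m₀)} : Finset (Option (Bool × W1 cs L))),
        (MapT_κ cs L t r i h (y * (MapT_α cs L i)⁻¹)) ^ 2) :=
    hasSum_sum_of_ne_finset_zero (by
      intro i hi
      rw [Finset.mem_insert, Finset.mem_singleton, not_or] at hi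
      rw [MapT_zero cs L t r h y m₀ hm i hi.1 hi.2]
      norm_num)
  rw [Finset.sum_pair (by simp)] at h2
  have h3 : (MapT_κ cs L t r none h (y * (MapT_α cs L none)⁻¹)) ^ 2 = r := by
    change (√r) ^ 2 = r
    exact Real.sq_sqrt h0.le
  have h4 : (MapT_κ cs L t r (some (side cs t h, m₀)) h
      (y * (MapT_α cs L (some (side cs t h, m₀)))⁻¹)) ^ 2 = 1 - r := by
    unfold MapT_κ MapT_α
    dsimp only
    rw [if_pos ⟨rfl, (hm m₀).2 rfl⟩]
    exact Real.sq_sqrt (by linarith)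
  rw [h3, h4] at h2
  rw [show (1 : ℝ) = r + (1 - r) by ring]
  exact h2

open Classical in
/-- the block of the map -/
private theorem MapT_block (L : Set B) (t : W) {r : ℝ} (h0 : 0 < r) (h1 : r < 1) (h k : W)
    (X : W1 cs L → W1 cs L → ℂ) (z y : W1 cs L) :
    ∑' i, ((MapT_κ cs L t r i h (z * (MapT_α cs L i)⁻¹) *
        MapT_κ cs L t r i k (y * (MapT_α cs L i)⁻¹) : ℝ) : ℂ) *
      X (z * (MapT_α cs L i)⁻¹) (y * (MapT_α cs L i)⁻¹) =
    (r : ℂ) * X z y + (if side cs t h = side cs t k then ((1 - r : ℝ) : ℂ) *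
      Ker {m : W1 cs L | ∀ i ∈ Zs cs L t (side cs t k), ¬ (cs1 cs L).IsLeftDescent m i}
        (WP (cs1 cs L) (Zs cs L t (side cs t k)) : Set (W1 cs L)) (fun _ _ => 1) X z y else 0) := by
  obtain ⟨m₀, hm⟩ := MapT_unique (cs1 cs L) (Zs cs L t (side cs t k)) y
  rw [tsum_eq_sum (s := {none, some (side cs t k, m₀)}) (by
      intro i hi
      rw [Finset.mem_insert, Finset.mem_singleton, not_or] at hi
      rw [MapT_zero cs L t r k y m₀ hm i hi.1 hi.2, mul_zero, Complex.ofReal_zero, zero_mul])]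
  rw [Finset.sum_pair (by simp)]
  congr 1
  · change ((√r * √r : ℝ) : ℂ) * X (z * (1 : W1 cs L)⁻¹) (y * (1 : W1 cs L)⁻¹) = _
    rw [Real.mul_self_sqrt h0.le, inv_one, mul_one, mul_one]
  · rw [MapT_Ker_eq (cs1 cs L) _ X z y m₀ hm]
    have h2 := (hm m₀).2 rfl
    unfold MapT_κ MapT_α
    dsimp only
    rw [if_pos (show side cs t k = side cs t k ∧ _ from ⟨rfl, h2⟩)]
    by_cases hs : side cs t h = side cs t k
    · rw [if_pos hs]
      by_cases hz : z * m₀⁻¹ ∈ WP (cs1 cs L) (Zs cs L t (side cs t k))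
      · rw [if_pos ⟨hs, h2.1, hz⟩, if_pos hz, Real.mul_self_sqrt (by linarith)]
      · rw [if_neg (fun h3 => hz h3.2.2), if_neg hz, zero_mul, Complex.ofReal_zero, zero_mul,
          mul_zero]
    · rw [if_neg hs, if_neg (fun h3 => hs h3.1), zero_mul, Complex.ofReal_zero, zero_mul]

private theorem MapT_CC_lin {q : B → ℝ} {X Y : W → W → ℂ} {i : B} (c d : ℂ) (hX : CC cs q X i)
    (hY : CC cs q Y i) : CC cs q (fun z y => c * X z y + d * Y z y) i := by
  intro z y
  have h1 := hX z y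
  have h2 := hY z y
  linear_combination c * h1 + d * h2

theorem exists_wall {L : Set B} {q : B → ℝ} (hq : Admissible cs q)
    (hE : ∀ i, i ∉ L → ∀ j ∈ L, Even (M i j)) (t : W) {r : ℝ} (h0 : 0 < r) (h1 : r < 1) :
    ∃ T, BMap cs L q T (mT cs L r t) := by
  classical
  obtain ⟨T, hT, hb⟩ := exists_bker cs hE (MapT_κ cs L t r) (MapT_α cs L)
    (fun h _ y => MapT_sq cs L t h0 h1 h y)
  refine ⟨T, hT, fun x hx => ?_⟩
  have hblk : ∀ h ∈ WP cs L, ∀ k ∈ WP cs L, blk cs L (cf (T x)) h k = fun z y =>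
      (r : ℂ) * blk cs L (cf x) h k z y +
      (if side cs t h = side cs t k then ((1 - r : ℝ) : ℂ) else 0) *
      Ker {m : W1 cs L | ∀ i ∈ Zs cs L t (side cs t k), ¬ (cs1 cs L).IsLeftDescent m i}
        (WP (cs1 cs L) (Zs cs L t (side cs t k)) : Set (W1 cs L)) (fun _ _ => 1)
        (blk cs L (cf x) h k) z y := by
    intro h hh k hk
    funext z y
    rw [hb x h hh k hk z y, MapT_block cs L t h0 h1 h k (blk cs L (cf x) h k) z y]
    congr 1
    split_ifs
    · rfl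
    · rw [zero_mul]
  constructor
  · intro h hh k hk a
    rw [hblk h hh k hk]
    exact MapT_CC_lin (cs1 cs L) _ _ (hx h hh k hk a)
      (MapT_Ker_CC (cs1 cs L) (admissible_q1 cs L hq) _ (hx h hh k hk) a)
  · intro h hh k hk z
    rw [hblk h hh k hk]
    have hm : ∀ m : W1 cs L, ((∀ i ∈ Zs cs L t (side cs t k), ¬ (cs1 cs L).IsLeftDescent m i) ∧
        1 * m⁻¹ ∈ WP (cs1 cs L) (Zs cs L t (side cs t k))) ↔ m = 1 := by
      intro m
      constructor
      · rintro ⟨h2, h3⟩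
        rw [one_mul, inv_mem_iff] at h3
        exact MapT_one (cs1 cs L) _ h2 h3
      · rintro rfl
        exact ⟨fun i _ => (cs1 cs L).not_isLeftDescent_one i, by simp⟩
    simp only
    rw [MapT_Ker_eq (cs1 cs L) _ _ z 1 1 hm, inv_one, mul_one, mul_one]
    unfold mT
    by_cases hs : side cs t h = side cs t k
    · by_cases hz : z ∈ WP (cs1 cs L) (Zs cs L t (side cs t k))
      · rw [if_pos hs, if_pos hz, if_pos ⟨hs, hz⟩]
        push_cast
        ring
      · rw [if_pos hs, if_neg hz,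
          if_neg (show ¬(side cs t h = side cs t k ∧
            z ∈ WP (cs1 cs L) (Zs cs L t (side cs t k))) from fun h3 => hz h3.2),
          mul_zero, add_zero]
    · rw [if_neg hs,
        if_neg (show ¬(side cs t h = side cs t k ∧
          z ∈ WP (cs1 cs L) (Zs cs L t (side cs t k))) from fun h3 => hs h3.1),
        zero_mul, add_zero]

end Pool.Agent.H73.HU
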