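import Pool.Agent.H73.HU.Inv
import Pool.Agent.H73.HU.Lim
import Pool.Agent.H73.HU.MapA
import Pool.Agent.H73.HU.MapT
import Pool.Agent.H73.HU.Lvl
import Pool.Agent.H73.HVN.EA
import Pool.Agent.H73.HVN.Trunc
import Pool.Agent.H73.HVN.Conv

/-!
# Project HU, module Fin: the Haagerup property

The maps are `E_A ∘ Φ_r`, with `Φ_r` the limit of the products of the tree maps and the wall maps, and `E_A` the
conditional expectation onto the algebra of `W_A`.
-/

set_option autoImplicit false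

open scoped ComplexOrder InnerProductSpace
open Filter Topology

namespace Pool.Agent.H73.HU

open Pool.Agent.H73.HVN Pool.Agent.H26.SD

universe u v w

variable {B : Type v} {W : Type u} [Group W] {M : CoxeterMatrix B} (cs : CoxeterSystem M W)

/-- the action of `W_L` on the index set -/
private noncomputable def fin_σ (L : Set B) (g : WP cs L) : (W ⊕ Rf cs L) ≃ (W ⊕ Rf cs L) where
  toFun := Sum.map (fun t => (g : W)⁻¹ * t * g) (cj cs L g⁻¹)
  invFun := Sum.map (fun t => (g : W) * t * (g : W)⁻¹) (cj cs L g)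
  left_inv j := by
    rcases j with t | a
    · simp only [Sum.map_inl]
      congr 1
      group
    · simp only [Sum.map_inr, cj_cj, mul_inv_cancel, cj_one]
  right_inv j := by
    rcases j with t | a
    · simp only [Sum.map_inl]
      congr 1
      group
    · simp only [Sum.map_inr, cj_cj, inv_mul_cancel, cj_one]

private theorem mJ_eqv (L : Set B) (r : ℝ) (j : W ⊕ Rf cs L) (g : WP cs L) (h k : W) (z : W1 cs L) :
    mJ cs L r (fin_σ cs L g j) (h * g) (k * g) (act1 cs L g⁻¹ z) = mJ cs L r j h k z := by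
  rcases j with t | a
  · exact mT_eqv cs L r t g h k z
  · exact mA_eqv cs L r a g h k (h * g) (k * g) z

private theorem finprod_eqv (L : Set B) (r : ℝ) (g : WP cs L) (h k : W) (z : W1 cs L) :
    ∏ᶠ j, mJ cs L r j (h * g) (k * g) (act1 cs L g⁻¹ z) = ∏ᶠ j, mJ cs L r j h k z := by
  rw [← finprod_comp_equiv (fin_σ cs L g)]
  exact finprod_congr fun j => mJ_eqv cs L r j g h k z

private theorem exists_TJ {L : Set B} {q : B → ℝ} (hq : Admissible cs q)
    (hE : ∀ i, i ∉ L → ∀ j ∈ L, Even (M i j)) {r : ℝ} (h0 : 0 < r) (h1 : r < 1) (j : W ⊕ Rf cs L) :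
    ∃ T, BMap cs L q T (mJ cs L r j) := by
  rcases j with t | a
  · exact exists_wall cs hq hE t h0 h1
  · exact exists_tree cs hq hE a h0 h1

/-- the limit map -/
theorem exists_limU {L : Set B} {q : B → ℝ} (hq : Admissible cs q)
    (hE : ∀ i, i ∉ L → ∀ j ∈ L, Even (M i j)) (hL : ∀ i ∈ L, q i = 1) {r : ℝ} (h0 : 0 < r) (h1 : r < 1) :
    ∃ Φ : HA cs q →ₗ[ℂ] HA cs q, IsNormalMap (HA cs q) Φ ∧ IsCP (HA cs q) Φ ∧
      IsMult cs q Φ (fun w => ((cU cs L r w : ℝ) : ℂ)) := by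
  classical
  obtain ⟨T, hT⟩ := exists_finset_bmap cs (exists_TJ cs hq hE h0 h1)
  obtain ⟨act, hact⟩ := exists_act cs hE
  -- decomposition
  have hdec : ∀ w : W, ∃ h ∈ WP cs L, ∃ z, w = h * pi1 cs L z := fun w =>
    ⟨(dec cs L w).1, (dec cs L w).1.2, (dec cs L w).2, dec_spec cs L w⟩
  have hBC : ∀ x ∈ HA cs q, BCC cs L q (cf x) := fun x hx =>
    ((mem_HA_iff_blk cs hq hE hL x).1 hx).1
  have hc : ∀ x ∈ HA cs q, ∀ F F' : Finset (W ⊕ Rf cs L), F ⊆ F' → ∀ z y, act z ⊆ F → act y ⊆ F →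
      cf (T F' x) z y = cf (T F x) z y := by
    intro x hx F F' hFF z y hz hy
    obtain ⟨h, hh, z, rfl⟩ := hdec z
    obtain ⟨k, hk, y, rfl⟩ := hdec y
    obtain ⟨A, hzA, hyA, hA⟩ := hact h hh k hk z y
    refine CC_ext_on (cs1 cs L) (A := A) (((hT F').2 x (hBC x hx)).1 h hh k hk)
      (((hT F).2 x (hBC x hx)).1 h hh k hk) ?_ z hzA y hyA
    intro u hu
    rw [((hT F').2 x (hBC x hx)).2 h hh k hk u, ((hT F).2 x (hBC x hx)).2 h hh k hk u]
    congr 2
    symm
    refine Finset.prod_subset hFF ?_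
    intro j _ hj
    exact hA r j (fun h' => hj (hz h')) (fun h' => hj (hy h')) u hu
  have hfp : ∀ h ∈ WP cs L, ∀ k ∈ WP cs L, ∀ z y, ∀ F : Finset (W ⊕ Rf cs L),
      act (h * pi1 cs L z) ⊆ F → act (k * pi1 cs L y) ⊆ F →
      ∏ᶠ j, mJ cs L r j h k z = ∏ j ∈ F, mJ cs L r j h k z := by
    intro h hh k hk z y F hz hy
    obtain ⟨A, hzA, hyA, hA⟩ := hact h hh k hk z y
    refine finprod_eq_prod_of_mulSupport_subset _ ?_
    intro j hj
    by_contra hjF
    rw [Finset.mem_coe] at hjF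
    exact hj (hA r j (fun h' => hjF (hz h')) (fun h' => hjF (hy h')) z hzA)
  have hmem : ∀ x ∈ HA cs q, ∀ x' : L2 W →L[ℂ] L2 W, (∀ (F : Finset (W ⊕ Rf cs L)) z y, act z ⊆ F →
      act y ⊆ F → cf x' z y = cf (T F x) z y) → x' ∈ HA cs q := by
    intro x hx x' hx'
    have hB : BCC cs L q (cf x') := by
      intro h hh k hk a z y
      set F := (act (h * pi1 cs L z) ∪ act (h * pi1 cs L (z * (cs1 cs L).simple a))) ∪
        (act (k * pi1 cs L y) ∪ act (k * pi1 cs L (y * (cs1 cs L).simple a))) with hF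
      have e := ((hT F).2 x (hBC x hx)).1 h hh k hk a z y
      have s1 : act (h * pi1 cs L z) ⊆ F := fun j hj => by
        rw [hF]; simp only [Finset.mem_union]; tauto
      have s2 : act (h * pi1 cs L (z * (cs1 cs L).simple a)) ⊆ F := fun j hj => by
        rw [hF]; simp only [Finset.mem_union]; tauto
      have s3 : act (k * pi1 cs L y) ⊆ F := fun j hj => by
        rw [hF]; simp only [Finset.mem_union]; tauto
      have s4 : act (k * pi1 cs L (y * (cs1 cs L).simple a)) ⊆ F := fun j hj => by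
        rw [hF]; simp only [Finset.mem_union]; tauto
      unfold blk at e ⊢
      rw [hx' F _ _ s1 s4, hx' F _ _ s1 s3, hx' F _ _ s2 s3]
      exact e
    rw [mem_HA_iff_blk cs hq hE hL]
    refine ⟨hB, ?_⟩
    refine inv_of_mult cs hq ((mem_HA_iff_blk cs hq hE hL x).1 hx).2 hB
      (fun h k z => ∏ᶠ j, mJ cs L r j h k z) ?_ ?_
    · intro h hh k hk z
      have e1 : blk cs L (cf x') h k z 1 =
          blk cs L (cf (T (act (h * pi1 cs L z) ∪ act (k * pi1 cs L 1)) x)) h k z 1 :=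
        hx' _ _ _ Finset.subset_union_left Finset.subset_union_right
      rw [e1, ((hT _).2 x (hBC x hx)).2 h hh k hk z]
      congr 2
      exact (hfp h hh k hk z 1 _ Finset.subset_union_left Finset.subset_union_right).symm
    · intro g h _ k _ z
      exact finprod_eqv cs L r g h k z
  obtain ⟨Φ, hn, hp, hΦ⟩ := exists_lim (HA cs q) T (fun F => (hT F).1) act hc hmem
  refine ⟨Φ, hn, hp, ?_⟩
  intro x w
  obtain ⟨h, hh, z, rfl⟩ := hdec w
  have e1 : cf (Φ x : L2 W →L[ℂ] L2 W) (h * pi1 cs L z) 1 =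
      cf (T (act (h * pi1 cs L z) ∪ act 1) (x : L2 W →L[ℂ] L2 W)) (h * pi1 cs L z) 1 :=
    hΦ x _ _ _ Finset.subset_union_left Finset.subset_union_right
  have e2 := ((hT (act (h * pi1 cs L z) ∪ act 1)).2 x (hBC x x.2)).2 h hh 1 (one_mem _) z
  unfold blk at e2
  rw [map_one, mul_one] at e2
  change cf (Φ x : L2 W →L[ℂ] L2 W) (h * pi1 cs L z) 1 =
    ((cU cs L r (h * pi1 cs L z) : ℝ) : ℂ) * cf (x : L2 W →L[ℂ] L2 W) (h * pi1 cs L z) 1
  rw [e1, e2]
  congr 2
  unfold cU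
  rw [dec_eq cs hE ⟨h, hh⟩ z]
  refine (hfp h hh 1 (one_mem _) z 1 _ Finset.subset_union_left ?_).symm
  rw [map_one, mul_one]
  exact Finset.subset_union_right

/-- the finite set of all generators in `F` -/
private noncomputable def fA (F : Finset W) : Finset B :=
  F.preimage cs.simple (simple_injective cs).injOn

private theorem mem_fA {F : Finset W} {b : B} : b ∈ fA cs F ↔ cs.simple b ∈ F := by
  unfold fA
  exact Finset.mem_preimage

/-- `ρ_k` -/
private noncomputable def fr (k : ℕ) : ℝ := 1 - 1 / ((k : ℝ) + 2)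

private theorem fr_pos (k : ℕ) : 0 < fr k := by
  unfold fr
  have hk : (0 : ℝ) ≤ k := Nat.cast_nonneg k
  have h2 : 1 / ((k : ℝ) + 2) < 1 := by
    rw [div_lt_one (by linarith)]
    linarith
  linarith

private theorem fr_lt (k : ℕ) : fr k < 1 := by
  unfold fr
  have hk : (0 : ℝ) ≤ k := Nat.cast_nonneg k
  have h2 : 0 < 1 / ((k : ℝ) + 2) := by positivity
  linarith

private theorem fr_tendsto : Tendsto fr atTop (𝓝 1) := by
  have h1 : Tendsto (fun k : ℕ => ((k : ℝ) + 2)) atTop atTop :=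
    tendsto_atTop_add_const_right _ _ tendsto_natCast_atTop_atTop
  have h2 : Tendsto (fun k : ℕ => 1 / ((k : ℝ) + 2)) atTop (𝓝 0) := by
    simp only [one_div]
    exact tendsto_inv_atTop_zero.comp h1
  have h3 := (tendsto_const_nhds (x := (1 : ℝ)) (f := (atTop : Filter ℕ))).sub h2
  rw [sub_zero] at h3
  exact h3

omit [Group W] in
private theorem snd_tendsto : Tendsto (fun i : Finset W × ℕ => i.2) atTop atTop := by
  classical
  rw [← Filter.prod_atTop_atTop_eq]
  exact Filter.tendsto_snd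

/-- the multiplier -/
private noncomputable def cH (L : Set B) (i : Finset W × ℕ) (w : W) : ℂ :=
  (open Classical in if w ∈ WP cs (fA cs i.1 : Set B) then (1 : ℂ) else 0) *
    ((cU cs L (fr i.2) w : ℝ) : ℂ)

private theorem cH_lim {L : Set B} (hE : ∀ i, i ∉ L → ∀ j ∈ L, Even (M i j)) (w : W) :
    Tendsto (fun i : Finset W × ℕ => cH cs L i w) atTop (𝓝 1) := by
  classical
  obtain ⟨A₀, hA₀⟩ := exists_finset_mem_WP cs w
  have h1 : Tendsto (fun i : Finset W × ℕ => cU cs L (fr i.2) w) atTop (𝓝 1) :=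
    cU_tendsto cs hE (fr_tendsto.comp snd_tendsto) w
  have h2 : Tendsto (fun i : Finset W × ℕ => ((cU cs L (fr i.2) w : ℝ) : ℂ)) atTop (𝓝 1) := by
    have h5 := (Complex.continuous_ofReal.tendsto (1 : ℝ)).comp h1
    simpa [Function.comp_def] using h5
  refine h2.congr' ?_
  filter_upwards [eventually_ge_atTop ((A₀.image cs.simple, 0) : Finset W × ℕ)] with i hi
  unfold cH
  have hsub : A₀ ⊆ fA cs i.1 := by
    intro b hb
    rw [mem_fA]
    exact hi.1 (Finset.mem_image_of_mem _ hb)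
  have hw : w ∈ WP cs (fA cs i.1 : Set B) :=
    WP_mono cs (by exact_mod_cast hsub) hA₀
  rw [if_pos hw, one_mul]

private theorem norm_cH {L : Set B} (hE : ∀ i, i ∉ L → ∀ j ∈ L, Even (M i j)) (i : Finset W × ℕ)
    (w : W) : ‖cH cs L i w‖ ≤ 1 := by
  unfold cH
  by_cases hw : w ∈ WP cs (fA cs i.1 : Set B)
  · have h := cU_bd cs hE (fr_pos i.2) (fr_lt i.2) w
    rw [if_pos hw, one_mul, Complex.norm_real, Real.norm_of_nonneg h.1.le]
    exact h.2
  · rw [if_neg hw, zero_mul, norm_zero]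
    exact zero_le_one

private theorem cH_one {L : Set B} (hE : ∀ i, i ∉ L → ∀ j ∈ L, Even (M i j)) (i : Finset W × ℕ) :
    cH cs L i 1 = 1 := by
  unfold cH
  rw [if_pos (one_mem _), cU_one cs hE]
  simp

private theorem finite_cH {L : Set B} (hE : ∀ i, i ∉ L → ∀ j ∈ L, Even (M i j)) (hFC : RfFC cs L)
    (i : Finset W × ℕ) {ε : ℝ} (hε : 0 < ε) : {w | ε ≤ ‖cH cs L i w‖}.Finite := by
  classical
  refine (finite_cU cs hE hFC (A := (fA cs i.1 : Set B)) (Finset.finite_toSet _) (fr_pos i.2)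
    (fr_lt i.2) hε).subset ?_
  intro w hw
  have hw' : ε ≤ ‖cH cs L i w‖ := hw
  unfold cH at hw'
  by_cases hWP : w ∈ WP cs (fA cs i.1 : Set B)
  · have h := cU_bd cs hE (fr_pos i.2) (fr_lt i.2) w
    rw [if_pos hWP, one_mul, Complex.norm_real, Real.norm_of_nonneg h.1.le] at hw'
    exact ⟨hWP, hw'⟩
  · exfalso
    rw [if_neg hWP, zero_mul, norm_zero] at hw'
    linarith

private theorem exists_H {L : Set B} {q : B → ℝ} (hq : Admissible cs q)
    (hE : ∀ i, i ∉ L → ∀ j ∈ L, Even (M i j)) (hL : ∀ i ∈ L, q i = 1) (i : Finset W × ℕ) :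
    ∃ Φ : HA cs q →ₗ[ℂ] HA cs q, IsNormalMap (HA cs q) Φ ∧ IsCP (HA cs q) Φ ∧
      IsMult cs q Φ (cH cs L i) := by
  obtain ⟨Φ₁, h1n, h1p, h1m⟩ := exists_limU cs hq hE hL (fr_pos i.2) (fr_lt i.2)
  obtain ⟨Φ₂, h2n, -, h2m, h2p⟩ := exists_EA cs hq (fA cs i.1 : Set B)
  exact ⟨Φ₂ ∘ₗ Φ₁, h2n.comp h1n, h2p.comp h1p, IsMult.comp cs h2m h1m⟩

theorem haagerup_walls {L : Set B} {q : B → ℝ} (hq : Admissible cs q)
    (hE : ∀ i, i ∉ L → ∀ j ∈ L, Even (M i j)) (hL : ∀ i ∈ L, q i = 1) (hFC : RfFC cs L) :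
    HasHaagerupProperty (HA cs q) (δ 1) := by
  classical
  choose Φ hn hp hm using exists_H cs hq hE hL
  refine ⟨Finset W × ℕ, inferInstance, inferInstance, inferInstance, Φ, ?_, ?_⟩
  · intro i
    refine ⟨hn i, hp i, ?_, ?_⟩
    · intro x _
      rw [inner_δ, inner_δ, hm i x 1, cH_one cs hE, one_mul]
    · refine ⟨wop (Equiv.refl W) (cH cs L i),
        isCompactOperator_wop (fun ε hε => finite_cH cs hE hFC i hε), ?_⟩
      intro x
      ext w
      rw [wop_apply (Equiv.refl W) (cH cs L i) (norm_cH cs hE i), hm i x w, Equiv.refl_apply]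
  · intro x
    exact tendsto_mult cs hm (norm_cH cs hE) (cH_lim cs hE) x

end Pool.Agent.H73.HU
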