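import Pool.Agent.H73.HU.Eqv
import Pool.Agent.H73.HU.Blk

/-!
# Project HU, module Inv: invariance under `W_L`
-/

set_option autoImplicit false

open scoped ComplexOrder InnerProductSpace
open Filter Topology

namespace Pool.Agent.H73.HU

open Pool.Agent.H73.HVN Pool.Agent.H26.SD

universe u v w

variable {B : Type v} {W : Type u} [Group W] {M : CoxeterMatrix B} (cs : CoxeterSystem M W)

theorem pi1_mul_act (L : Set B) (g : WP cs L) (c : W) (z : W1 cs L) :
    c * pi1 cs L z * g = c * g * pi1 cs L (act1 cs L g⁻¹ z) := by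
  rw [pi1_act1]
  simp only [Subgroup.coe_inv, inv_inv]
  group

/-- right translation of blocks -/
theorem blk_mul (L : Set B) (X : W → W → ℂ) (g : WP cs L) (h k : W) (z y : W1 cs L) :
    blk cs L (fun w w' => X (w * g) (w' * g)) h k z y =
      blk cs L X (h * g) (k * g) (act1 cs L g⁻¹ z) (act1 cs L g⁻¹ y) := by
  unfold blk
  dsimp only
  rw [pi1_mul_act, pi1_mul_act]

theorem BCC_mul {L : Set B} {q : B → ℝ} (hq : Admissible cs q) {X : W → W → ℂ}
    (hX : BCC cs L q X) (g : WP cs L) : BCC cs L q (fun w w' => X (w * g) (w' * g)) := by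
  intro h hh k hk a z y
  rw [blk_mul, blk_mul, blk_mul]
  have h1 := hX (h * g) (mul_mem hh g.2) (k * g) (mul_mem hk g.2) (cj cs L g⁻¹ a)
    (act1 cs L g⁻¹ z) (act1 cs L g⁻¹ y)
  rw [pr_eqv cs hq, pr_eqv cs hq, ← act1_simple, ← map_mul, ← map_mul] at h1
  exact h1

/-- an operator whose blocks are multiples of those of an invariant operator, with an invariant multiplier, is
invariant -/
theorem inv_of_mult {L : Set B} {q : B → ℝ} (hq : Admissible cs q) {X X' : W → W → ℂ}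
    (hX : ∀ g ∈ WP cs L, ∀ z y, X (z * g) (y * g) = X z y) (hX' : BCC cs L q X')
    (m : W → W → W1 cs L → ℝ)
    (hm : ∀ h ∈ WP cs L, ∀ k ∈ WP cs L, ∀ z, blk cs L X' h k z 1 = ((m h k z : ℝ) : ℂ) * blk cs L X h k z 1)
    (he : ∀ g : WP cs L, ∀ h ∈ WP cs L, ∀ k ∈ WP cs L, ∀ z,
      m (h * g) (k * g) (act1 cs L g⁻¹ z) = m h k z) :
    ∀ g ∈ WP cs L, ∀ z y, X' (z * g) (y * g) = X' z y := by
  intro g hg w w'
  have h1 := BCC_mul cs hq hX' ⟨g, hg⟩
  set hz := (dec cs L w).1 with hhz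
  set hy := (dec cs L w').1 with hhy
  have key := CC_ext_on (cs1 cs L) (A := Set.univ) (h1 hz hz.2 hy hy.2) (hX' hz hz.2 hy hy.2) (by
    intro z _
    rw [blk_mul, map_one]
    rw [hm (hz * g) (mul_mem hz.2 hg) (hy * g) (mul_mem hy.2 hg), hm hz hz.2 hy hy.2]
    have h2 := he ⟨g, hg⟩ hz hz.2 hy hy.2 z
    rw [h2]
    congr 1
    have h3 := hX g hg (hz * pi1 cs L z) (hy * pi1 cs L 1)
    have h4 := blk_mul cs L X ⟨g, hg⟩ hz hy z 1
    rw [map_one] at h4
    rw [← h4]
    exact h3) (dec cs L w).2 (WP_univ_mem _ _) (dec cs L w').2 (WP_univ_mem _ _)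
  have ez := dec_spec cs L w
  have ey := dec_spec cs L w'
  unfold blk at key
  rw [← ez, ← ey] at key
  exact key

end Pool.Agent.H73.HU
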