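import Pool.Agent.H73.HU.Defs

/-!
# Project HU, module Krm: Kraus maps

PLAN. `krM_id`: `ι = PUnit`, `A = 1`. `KrM.comp`: index `ι × κ`, operators `A'_j A_i`: `IsRow` by
`summable_prod_of_nonneg` as in `kr_prod` of `Pool/Agent/H73/HVN/Kraus.lean` (private there, copy what is needed),
`⟪η, T (S x) ξ⟫ = ∑' i ⟪A_i η, S x (A_i ξ)⟫ = ∑' i ∑' j ⟪A'_j A_i η, x A'_j A_i ξ⟫` and `Summable.tsum_prod`
(summability: `summable_kraus` for the product family). `exists_kmap`: copy the private part (`weight_bound`,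
`opA`, `opA_δ`, `opA_isRow`) of `Pool/Agent/H73/HVN/Kern.lean` and the first half of the proof of
`exists_map_of_kernel` there (`exists_kraus` and the computation `hcf`).
-/

set_option autoImplicit false

open scoped ComplexOrder InnerProductSpace
open Filter Topology

namespace Pool.Agent.H73.HU

open Pool.Agent.H73.HVN Pool.Agent.H26.SD

universe u v

section General

variable {H : Type u} [NormedAddCommGroup H] [InnerProductSpace ℂ H] [CompleteSpace H]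

theorem krM_id : KrM (LinearMap.id : (H →L[ℂ] H) →ₗ[ℂ] (H →L[ℂ] H)) := by
  refine ⟨PUnit.{u + 1}, fun _ => ContinuousLinearMap.id ℂ H, ?_, ?_⟩
  · intro ξ
    refine ⟨(hasSum_fintype _).summable, ?_⟩
    rw [tsum_fintype]
    simp
  · intro x ξ η
    rw [tsum_fintype]
    simp

private theorem row_comp {ι κ : Type u} {A : ι → H →L[ℂ] H} {C : κ → H →L[ℂ] H}
    (hA : IsRow A 1) (hC : IsRow C 1) :
    IsRow (fun p : ι × κ => (C p.2).comp (A p.1)) 1 := by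
  intro ξ
  have h0 : ∀ p : ι × κ, 0 ≤ ‖((C p.2).comp (A p.1)) ξ‖ ^ 2 := fun p => sq_nonneg _
  have h1 : ∀ i, ∑' j, ‖C j (A i ξ)‖ ^ 2 ≤ ‖A i ξ‖ ^ 2 := fun i => by
    have := (hC (A i ξ)).2
    rwa [one_mul] at this
  have hc : Summable (fun i => ∑' j, ‖C j (A i ξ)‖ ^ 2) :=
    Summable.of_nonneg_of_le (fun i => tsum_nonneg fun j => sq_nonneg _) h1 (hA ξ).1
  have hp : Summable (fun p : ι × κ => ‖((C p.2).comp (A p.1)) ξ‖ ^ 2) :=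
    (summable_prod_of_nonneg h0).2 ⟨fun i => (hC (A i ξ)).1, hc⟩
  refine ⟨hp, ?_⟩
  rw [hp.tsum_prod]
  exact (hc.tsum_le_tsum h1 (hA ξ).1).trans (hA ξ).2

theorem KrM.comp {T S : (H →L[ℂ] H) →ₗ[ℂ] (H →L[ℂ] H)} (hT : KrM T) (hS : KrM S) :
    KrM (T ∘ₗ S) := by
  obtain ⟨ι, A, hA, hTA⟩ := hT
  obtain ⟨κ, C, hC, hSC⟩ := hS
  have hr := row_comp hA hC
  refine ⟨ι × κ, fun p => (C p.2).comp (A p.1), hr, ?_⟩
  intro x ξ η
  rw [LinearMap.comp_apply, hTA, (summable_kraus hr hr x ξ η).tsum_prod]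
  refine tsum_congr fun i => ?_
  rw [hSC]
  rfl

end General

variable {W : Type u} [Group W]

private theorem weight_bound {ι : Type u} (k : ι → W → ℝ) (a : ι → W) {K : ℝ}
    (hk : ∀ y, Summable (fun i => (k i (y * (a i)⁻¹)) ^ 2) ∧ ∑' i, (k i (y * (a i)⁻¹)) ^ 2 ≤ K)
    (i : ι) (w : W) : ‖((k i w : ℝ) : ℂ)‖ ≤ √K := by
  have h := hk (w * a i)
  have h1 : (k i (w * a i * (a i)⁻¹)) ^ 2 ≤ K :=
    (h.1.le_tsum i (fun j _ => sq_nonneg _)).trans h.2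
  rw [mul_inv_cancel_right] at h1
  rw [Complex.norm_real, Real.norm_eq_abs]
  exact Real.abs_le_sqrt h1

private noncomputable def opA {ι : Type u} (k : ι → W → ℝ) (a : ι → W) (i : ι) :
    L2 W →L[ℂ] L2 W :=
  wop (Equiv.mulRight (a i)) (fun w => ((k i w : ℝ) : ℂ))

private theorem opA_apply {ι : Type u} (k : ι → W → ℝ) (a : ι → W) {K : ℝ}
    (hk : ∀ y, Summable (fun i => (k i (y * (a i)⁻¹)) ^ 2) ∧ ∑' i, (k i (y * (a i)⁻¹)) ^ 2 ≤ K)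
    (i : ι) (f : L2 W) (w : W) :
    opA k a i f w = ((k i w : ℝ) : ℂ) * f (w * a i) := by
  unfold opA
  rw [wop_apply (Equiv.mulRight (a i)) (fun w => ((k i w : ℝ) : ℂ))
    (fun x => weight_bound k a hk i x) f w]
  rfl

private theorem opA_δ {ι : Type u} (k : ι → W → ℝ) (a : ι → W) {K : ℝ}
    (hk : ∀ y, Summable (fun i => (k i (y * (a i)⁻¹)) ^ 2) ∧ ∑' i, (k i (y * (a i)⁻¹)) ^ 2 ≤ K)
    (i : ι) (y : W) :
    opA k a i (δ y) = ((k i (y * (a i)⁻¹) : ℝ) : ℂ) • (δ (y * (a i)⁻¹) : L2 W) := by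
  unfold opA
  rw [wop_δ (Equiv.mulRight (a i)) (fun w => ((k i w : ℝ) : ℂ))
    (fun x => weight_bound k a hk i x) y]
  rfl

private theorem opA_hasSum {ι : Type u} (k : ι → W → ℝ) (a : ι → W) {K : ℝ}
    (hk : ∀ y, Summable (fun i => (k i (y * (a i)⁻¹)) ^ 2) ∧ ∑' i, (k i (y * (a i)⁻¹)) ^ 2 ≤ K)
    (i : ι) (ξ : L2 W) :
    HasSum (fun y => (k i (y * (a i)⁻¹)) ^ 2 * ‖ξ y‖ ^ 2) (‖opA k a i ξ‖ ^ 2) := by
  have h := hasSum_normsq (opA k a i ξ)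
  have h2 := ((Equiv.mulRight (a i)).symm.hasSum_iff).2 h
  convert h2 using 1
  funext y
  simp only [Function.comp_apply]
  rw [opA_apply k a hk, norm_mul, mul_pow, Complex.norm_real, Real.norm_eq_abs, sq_abs]
  simp

private theorem opA_isRow {ι : Type u} (k : ι → W → ℝ) (a : ι → W) {K : ℝ}
    (hk : ∀ y, Summable (fun i => (k i (y * (a i)⁻¹)) ^ 2) ∧ ∑' i, (k i (y * (a i)⁻¹)) ^ 2 ≤ K) :
    IsRow (opA k a) K := by
  intro ξ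
  have hS := hasSum_normsq ξ
  have hnn : ∀ (p : W × ι), 0 ≤ (k p.2 (p.1 * (a p.2)⁻¹)) ^ 2 * ‖ξ p.1‖ ^ 2 := fun p => by positivity
  have hrow : ∀ y, Summable (fun i => (k i (y * (a i)⁻¹)) ^ 2 * ‖ξ y‖ ^ 2) := fun y =>
    (hk y).1.mul_right _
  have hrow2 : ∀ y, ∑' i, (k i (y * (a i)⁻¹)) ^ 2 * ‖ξ y‖ ^ 2 ≤ K * ‖ξ y‖ ^ 2 := by
    intro y
    rw [tsum_mul_right]
    exact mul_le_mul_of_nonneg_right (hk y).2 (sq_nonneg _)
  have hKs : Summable (fun y => K * ‖ξ y‖ ^ 2) := hS.summable.mul_left K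
  have hc : Summable (fun y => ∑' i, (k i (y * (a i)⁻¹)) ^ 2 * ‖ξ y‖ ^ 2) := by
    refine Summable.of_nonneg_of_le (fun y => tsum_nonneg fun i => by positivity) hrow2 hKs
  have hp : Summable (fun p : W × ι => (k p.2 (p.1 * (a p.2)⁻¹)) ^ 2 * ‖ξ p.1‖ ^ 2) :=
    (summable_prod_of_nonneg hnn).2 ⟨hrow, hc⟩
  have hp' : Summable (fun p : ι × W => (k p.1 (p.2 * (a p.1)⁻¹)) ^ 2 * ‖ξ p.2‖ ^ 2) :=
    hp.prod_symm
  have he : ∀ i, ‖opA k a i ξ‖ ^ 2 = ∑' y, (k i (y * (a i)⁻¹)) ^ 2 * ‖ξ y‖ ^ 2 := fun i =>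
    (opA_hasSum k a hk i ξ).tsum_eq.symm
  constructor
  · simp_rw [he]
    exact hp'.prod
  · simp_rw [he]
    have hcomm : ∑' i, ∑' y, (k i (y * (a i)⁻¹)) ^ 2 * ‖ξ y‖ ^ 2 =
        ∑' y, ∑' i, (k i (y * (a i)⁻¹)) ^ 2 * ‖ξ y‖ ^ 2 :=
      (Summable.tsum_comm (f := fun (i : ι) (y : W) => (k i (y * (a i)⁻¹)) ^ 2 * ‖ξ y‖ ^ 2) hp').symm
    rw [hcomm]
    calc ∑' y, ∑' i, (k i (y * (a i)⁻¹)) ^ 2 * ‖ξ y‖ ^ 2 ≤ ∑' y, K * ‖ξ y‖ ^ 2 :=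
          hc.tsum_le_tsum hrow2 hKs
      _ = K * ‖ξ‖ ^ 2 := by rw [tsum_mul_left, hS.tsum_eq]

theorem exists_kmap {ι : Type u} (k : ι → W → ℝ) (a : ι → W)
    (hk : ∀ y, HasSum (fun i => (k i (y * (a i)⁻¹)) ^ 2) 1) :
    ∃ T : (L2 W →L[ℂ] L2 W) →ₗ[ℂ] (L2 W →L[ℂ] L2 W), KrM T ∧
      ∀ x : L2 W →L[ℂ] L2 W, cf (T x) = kmap k k a (cf x) := by
  have hk' : ∀ y, Summable (fun i => (k i (y * (a i)⁻¹)) ^ 2) ∧
      ∑' i, (k i (y * (a i)⁻¹)) ^ 2 ≤ 1 := fun y => ⟨(hk y).summable, (hk y).tsum_eq.le⟩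
  have hA := opA_isRow k a hk'
  obtain ⟨Ψ, hΨ⟩ := exists_kraus zero_le_one hA hA
  refine ⟨Ψ, ⟨ι, opA k a, hA, hΨ⟩, ?_⟩
  intro x
  funext z y
  unfold cf kmap
  rw [← inner_δ, hΨ]
  refine tsum_congr fun i => ?_
  rw [opA_δ k a hk', opA_δ k a hk', inner_smul_left, map_smul, inner_smul_right, inner_δ,
    Complex.conj_ofReal]
  push_cast
  ring

end Pool.Agent.H73.HU
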