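import Pool.Agent.H73.HU.Fin
import Pool.Agent.H26.SD.Stmt

/-!
# Project HU: the hypothesis of the statement

`(W, S)` a Coxeter system, `L ⊆ S`. `W_L` is the subgroup generated by `L`, and `R_L` is the set of the
reflections `g s g⁻¹` with `g ∈ W_L` and `s ∈ S`, `s ∉ L` (`Pool.Agent.H26.SD.refl`).
-/

set_option autoImplicit false

namespace Pool.Agent.H73.HU

open Pool.Agent.H26.SD

universe u v

variable {B : Type v} {W : Type u} [Group W] {M : CoxeterMatrix B} (cs : CoxeterSystem M W)

/-- The condition on `L`: `m_{st}` is even or infinite for all `s ∉ L`, `t ∈ L` (in Mathlib `M i j = 0`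
encodes `m_{ij} = ∞`), and the reflection subgroup generated by `R_L` is of type FC: every finite set
`K ⊆ R_L` such that `r r'` has finite order for all `r, r' ∈ K` generates a finite subgroup of `W`. There
is no condition on the group `W_L`. -/
def WallsFC (L : Set B) : Prop :=
  (∀ i, i ∉ L → ∀ j ∈ L, Even (M i j)) ∧
    ∀ K : Finset W, (∀ r ∈ K, r ∈ refl cs L) → (∀ r ∈ K, ∀ r' ∈ K, IsOfFinOrder (r * r')) →
      Finite (Subgroup.closure (K : Set W))

/-- For `L = S` there is no condition. -/
theorem wallsFC_univ : WallsFC cs Set.univ := by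
  refine ⟨fun i hi => absurd (Set.mem_univ i) hi, ?_⟩
  intro K hK _
  have h0 : (K : Set W) = ∅ := by
    ext r
    simp only [Finset.mem_coe, Set.mem_empty_iff_false, iff_false]
    intro hr
    obtain ⟨_, _, i, hi, _⟩ := hK r hr
    exact hi (Set.mem_univ i)
  rw [h0, Subgroup.closure_empty]
  infer_instance

/-- For `L = ∅` the condition is that `(W, S)` is of type FC. -/
theorem wallsFC_empty (hFC : Pool.Agent.H73.HVN.St.IsFC cs) : WallsFC cs ∅ := by
  have h := fcRel_empty cs hFC
  exact ⟨h.1, h.2.2⟩

end Pool.Agent.H73.HU
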