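import Pool.Agent.H73.HU.Krm

/-!
# Project HU, module Tr: Kraus maps from block weights
-/

set_option autoImplicit false

open scoped ComplexOrder InnerProductSpace
open Filter Topology

namespace Pool.Agent.H73.HU

open Pool.Agent.H73.HVN Pool.Agent.H26.SD

universe u v w

variable {B : Type v} {W : Type u} [Group W] {M : CoxeterMatrix B} (cs : CoxeterSystem M W)

private theorem tr_mul {L : Set B} (h : W) (z α : W1 cs L) :
    h * pi1 cs L z * (pi1 cs L α)⁻¹ = h * pi1 cs L (z * α⁻¹) := by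
  rw [map_mul, map_inv, mul_assoc]

theorem exists_bker {L : Set B} (hE : ∀ i, i ∉ L → ∀ j ∈ L, Even (M i j)) {ι : Type u}
    (κ : ι → W → W1 cs L → ℝ) (α : ι → W1 cs L)
    (hκ : ∀ h ∈ WP cs L, ∀ y, HasSum (fun i => (κ i h (y * (α i)⁻¹)) ^ 2) 1) :
    ∃ T : (L2 W →L[ℂ] L2 W) →ₗ[ℂ] (L2 W →L[ℂ] L2 W), KrM T ∧
      ∀ (x : L2 W →L[ℂ] L2 W), ∀ h ∈ WP cs L, ∀ k ∈ WP cs L, ∀ z y,
        blk cs L (cf (T x)) h k z y =
          ∑' i, ((κ i h (z * (α i)⁻¹) * κ i k (y * (α i)⁻¹) : ℝ) : ℂ) *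
            blk cs L (cf x) h k (z * (α i)⁻¹) (y * (α i)⁻¹) := by
  have hd : ∀ h, ∀ hh : h ∈ WP cs L, ∀ z, dec cs L (h * pi1 cs L z) = (⟨h, hh⟩, z) := by
    intro h hh z
    exact dec_eq cs hE ⟨h, hh⟩ z
  obtain ⟨T, hT, hcf⟩ := exists_kmap (W := W) (fun i w => κ i (dec cs L w).1 (dec cs L w).2)
    (fun i => pi1 cs L (α i)) (by
      intro y
      have h1 := dec_spec cs L y
      have h2 := hκ (dec cs L y).1 (dec cs L y).1.2 (dec cs L y).2
      have h3 : (fun i => (κ i (dec cs L (y * (pi1 cs L (α i))⁻¹)).1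
          (dec cs L (y * (pi1 cs L (α i))⁻¹)).2) ^ 2) =
          fun i => (κ i (dec cs L y).1 ((dec cs L y).2 * (α i)⁻¹)) ^ 2 := by
        funext i
        have h4 : y * (pi1 cs L (α i))⁻¹ =
            ((dec cs L y).1 : W) * pi1 cs L ((dec cs L y).2 * (α i)⁻¹) := by
          conv_lhs => rw [h1]
          exact tr_mul cs _ _ _
        rw [h4, dec_eq cs hE]
      rw [h3]
      exact h2)
  refine ⟨T, hT, ?_⟩
  intro x h hh k hk z y
  unfold blk
  rw [hcf]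
  unfold kmap
  refine tsum_congr fun i => ?_
  rw [tr_mul, tr_mul]
  dsimp only
  rw [hd h hh, hd k hk]

end Pool.Agent.H73.HU
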